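import Pool.Agent.H58.SO.Defs
import Pool.Agent.H58.CT.Targets

/-!
# Several orbits of vertices: targets
-/

set_option autoImplicit false
set_option linter.unusedVariables false

namespace Pool.Agent.H58.SO

open Pool.Agent.H68.BP Pool.Agent.H58.SF Pool.Agent.H53.GC Pool.Agent.H53.NR
open Classical

/-! ### A. Configurations -/

/-- systems of points with copied colours -/
def T_SYS : Prop :=
  ∀ (V X Θ : Type) [LinearOrder V] (M : ℕ) (B : Bs V X Θ M) (W : Type) [LinearOrder W] [Finite W]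
    (u : W → V) (r : W → W → Prop), (∀ n n', r n n' → r n' n) →
    ∃ e : W → V, StrictMono e ∧ (∀ n, B.vt (e n) = B.vt (u n)) ∧ ∀ n n', n ≠ n' →
      (r n n' ∧ u n ≠ u n' → B.c (e n) (e n') = B.c (u n) (u n')) ∧
      (¬ (r n n' ∧ u n ≠ u n') → B.c (e n) (e n') = B.fr (B.vt (u n)) (B.vt (u n')))

/-- Finite coloured orders whose sets with at most `M` elements without free pairs are realized
embed into `V`. -/
def T_CFG : Prop :=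
  ∀ (V X Θ : Type) [LinearOrder V] (M : ℕ) (B : Bs V X Θ M) (W R : Type) [Finite W]
    [LinearOrder R] (rk : W → R) (t : W → Θ) (d : W → W → X), Function.Injective rk →
    (∀ x y, d y x = B.inv (d x y)) → (∀ x, d x x = B.fr (t x) (t x)) →
    (∀ x y, B.L (d x y) = t x) →
    (∀ K : Set W, K.ncard ≤ M → (∀ x ∈ K, ∀ y ∈ K, x ≠ y → d x y ≠ B.fr (t x) (t y)) →
      ∃ u : W → V, (∀ x ∈ K, ∀ y ∈ K, u x = u y → x = y) ∧
        ∀ x ∈ K, ∀ y ∈ K, B.c (u x) (u y) = d x y) →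
    ∃ f : W → V, (∀ x y, rk x < rk y → f x < f y) ∧ ∀ x y, B.c (f x) (f y) = d x y

/-- configurations of entries with levels and ranks -/
def T_SCF : Prop :=
  ∀ (V X Θ : Type) [LinearOrder V] (M : ℕ) (B : Bs V X Θ M) (P I R : Type) [Finite P] [Finite I]
    [LinearOrder R] (x : P → I → V) (lev : P → I → ℕ) (ρ : P → I → R) (supp : ℕ → Set I),
    (∀ a l b l', lev a l = lev b l' → (ρ a l = ρ b l' ↔ x a l = x b l')) →
    ∃ z : P → I → V, Cfg B x lev ρ supp z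

/-- The colours and orders of a configuration are determined by the data of the two entries. -/
def T_SCP : Prop :=
  ∀ (V X Θ : Type) [LinearOrder V] (M : ℕ) (B : Bs V X Θ M) (P P' I R R' : Type) [LinearOrder R]
    [LinearOrder R'] (x : P → I → V) (lev : P → I → ℕ) (ρ : P → I → R) (x' : P' → I → V)
    (lev' : P' → I → ℕ) (ρ' : P' → I → R') (supp : ℕ → Set I) (z : P → I → V) (z' : P' → I → V),
    Cfg B x lev ρ supp z → Cfg B x' lev' ρ' supp z' →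
    ∀ (u v : P) (u' v' : P') (l l' : I), lev u l = lev' u' l → lev v l' = lev' v' l' →
      B.vt (x u l) = B.vt (x' u' l) → B.vt (x v l') = B.vt (x' v' l') →
      (lev u l = lev v l' → (ρ u l < ρ v l' ↔ ρ' u' l < ρ' v' l') ∧
        (ρ v l' < ρ u l ↔ ρ' v' l' < ρ' u' l)) →
      ((supp (lev u l) ∩ supp (lev v l')).Nonempty → (x u l = x v l' ↔ x' u' l = x' v' l') ∧
        B.c (x u l) (x v l') = B.c (x' u' l) (x' v' l')) →
      B.ct (z u l) (z v l') = B.ct (z' u' l) (z' v' l')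

/-- Each coordinate of a configuration is a copy. -/
def T_CCL : Prop :=
  ∀ (V X Θ : Type) [LinearOrder V] (M : ℕ) (B : Bs V X Θ M) (P I R : Type) [LinearOrder R]
    (x : P → I → V) (lev : P → I → ℕ) (ρ : P → I → R) (supp : ℕ → Set I) (z : P → I → V) (l : I)
    (D : Set Θ), Cfg B x lev ρ supp z →
    (∀ a, B.vt (x a l) ∉ D → l ∈ supp (lev a l)) →
    (∀ a b, B.vt (x a l) ∉ D → B.vt (x b l) ∉ D → x a l = x b l →
      lev a l = lev b l ∧ ρ a l = ρ b l) →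
    (∀ a b, B.vt (x a l) ∉ D → B.vt (x b l) ∉ D → lev a l = lev b l → ρ a l = ρ b l →
      x a l = x b l) →
    SameD B D (fun a => x a l) (fun a => z a l)

/-- tuples in arbitrary orders -/
def T_ORD : Prop :=
  ∀ (V X Θ : Type) [LinearOrder V] (M : ℕ) (B : Bs V X Θ M) (P R : Type) [Finite P]
    [LinearOrder R] (x : P → V) (rk : P → R), (∀ a b, rk a = rk b ↔ x a = x b) →
    ∃ x' : P → V, SameD B ∅ x x' ∧ ∀ a b, x' a < x' b ↔ rk a < rk b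

/-- realization -/
def T_RLZ : Prop :=
  ∀ (V X Θ : Type) [LinearOrder V] (M : ℕ) (B : Bs V X Θ M) (P : Type) [Finite P]
    (q : P → P → X × Ordering),
    (∀ p : Fin M → P, ∃ x : Fin M → V, ∀ a b, B.ct (x a) (x b) = q (p a) (p b)) →
    ∃ γ : P → V, ∀ p p', B.ct (γ p) (γ p') = q p p'

/-- combinations -/
def T_EXT : Prop :=
  ∀ (σ : Sig) (V X Θ : Type) [LinearOrder V] (M : ℕ) (B : Bs V X Θ M) (𝔸 : Str σ V) (D : Set Θ),
    Blind B 𝔸 D → ∀ (I : Type) (h : (I → V) → (I → V) → X × Ordering), PM B 𝔸 h →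
    ∀ (P : Type) [Finite P] (z : P → I → V), ∃ γ : P → V,
      (∀ p p', B.ct (γ p) (γ p') = h (z p) (z p')) ∧
      ∀ (s : Option (Fin σ.m)) (f : Fin (arP σ M s) → P),
        (∀ i, relP 𝔸 M s (fun a => z (f a) i)) → relP 𝔸 M s (fun a => γ (f a))

/-! ### B. The canonical Olšák map -/

/-- the canonical Olšák map -/
def T_HH0 : Prop :=
  ∀ (σ : Sig) (V X Θ : Type) [LinearOrder V] (M : ℕ) (B : Bs V X Θ M) (𝔸 : Str σ V),
    Countable V → Oligo 𝔸 → RamseyFin B.c → ¬ PPConstructsK3 𝔸 → Blind B 𝔸 ∅ →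
    ∃ h, Sit B 𝔸 ∅ h

/-! ### C. The reduction to the core situation -/

/-- canonical maps and types of vertices -/
def T_UMB : Prop :=
  ∀ (σ : Sig) (V X Θ V' X' Θ' : Type) [LinearOrder V] [LinearOrder V'] (M : ℕ) (B : Bs V X Θ M)
    (B' : Bs V' X' Θ' M) (𝔸 : Str σ V) (𝔸' : Str σ V') (m : X × Ordering → X' × Ordering),
    UM B B' 𝔸 𝔸' m →
    (∀ x y, B'.L (m (B.ct x y)).1 = tm B B' m (B.vt x) ∧
      B'.Rt (m (B.ct x y)).1 = tm B B' m (B.vt y)) ∧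
    ∀ s, m (B.fr s s, Ordering.eq) = (B'.fr (tm B B' m s) (tm B B' m s), Ordering.eq)

/-- composition -/
def T_UMC : Prop :=
  ∀ (σ : Sig) (V X Θ V' X' Θ' V'' X'' Θ'' : Type) [LinearOrder V] [LinearOrder V']
    [LinearOrder V''] (M : ℕ) (B : Bs V X Θ M) (B' : Bs V' X' Θ' M) (B'' : Bs V'' X'' Θ'' M)
    (𝔸 : Str σ V) (𝔸' : Str σ V') (𝔸'' : Str σ V'') (m : X × Ordering → X' × Ordering)
    (m' : X' × Ordering → X'' × Ordering), UM B B' 𝔸 𝔸' m → UM B' B'' 𝔸' 𝔸'' m' →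
    UM B B'' 𝔸 𝔸'' (fun t => m' (m t)) ∧
      ∀ s, tm B B'' (fun t => m' (m t)) s = tm B' B'' m' (tm B B' m s)

/-- transfer of homomorphisms -/
def T_HTR : Prop :=
  ∀ (σ : Sig) (V X Θ V' X' Θ' : Type) [LinearOrder V] [LinearOrder V'] (M : ℕ) (B : Bs V X Θ M)
    (B' : Bs V' X' Θ' M) (𝔸 : Str σ V) (𝔸' : Str σ V') (D : Set Θ')
    (m : X × Ordering → X' × Ordering), UM B B' 𝔸 𝔸' m → Blind B' 𝔸' D →
    ∀ (n : ℕ) (𝕏 : Str σ (Fin n)), (∃ f : Fin n → V, IsHom 𝕏 𝔸 f) →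
      ∃ f : Fin n → V', IsHom 𝕏 𝔸' f

/-- restriction to a set of types of vertices -/
def T_SUB : Prop :=
  ∀ (V X Θ : Type) [LinearOrder V] (M : ℕ) (B : Bs V X Θ M) (S : Set Θ), S.Nonempty →
    ∃ B' : Bs {v : V // B.vt v ∈ S} {t : X // B.L t ∈ S ∧ B.Rt t ∈ S} {s : Θ // s ∈ S} M,
      (∀ x y, (B'.c x y : X) = B.c x y) ∧ (∀ x, (B'.vt x : Θ) = B.vt x) ∧
      (∀ s t, (B'.fr s t : X) = B.fr s t) ∧ (∀ t, (B'.L t : Θ) = B.L t) ∧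
      (∀ t, (B'.Rt t : Θ) = B.Rt t) ∧ ∀ t, (B'.inv t : X) = B.inv t

/-- Passing to a set of types which cannot be made smaller. -/
def T_STR : Prop :=
  ∀ (σ : Sig) (V X Θ : Type) [LinearOrder V] (M : ℕ) (B : Bs V X Θ M) (𝔸 : Str σ V) (h),
    Sit B 𝔸 ∅ h → ∃ (V' X' Θ' : Type) (_ : LinearOrder V') (B' : Bs V' X' Θ' M) (𝔸' : Str σ V')
      (h' : (Fin 6 → V') → (Fin 6 → V') → X' × Ordering) (m : X × Ordering → X' × Ordering)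
      (m' : X' × Ordering → X × Ordering),
      (Countable V → Countable V') ∧ Sit B' 𝔸' ∅ h' ∧ UM B B' 𝔸 𝔸' m ∧ UM B' B 𝔸' 𝔸 m' ∧
        NE1 B' 𝔸'

/-- Identified types: the values depend only on the types. -/
def T_COL : Prop :=
  ∀ (σ : Sig) (V X Θ : Type) [LinearOrder V] (M : ℕ) (B : Bs V X Θ M) (𝔸 : Str σ V)
    (m : X × Ordering → X × Ordering), UM B B 𝔸 𝔸 m → ∀ s,
      (m (B.fr s s, Ordering.lt)).2 = Ordering.eq → ∀ x y, B.vt x = s →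
        m (B.ct x y) = m (B.fr s (B.vt y), Ordering.gt) ∧
        m (B.ct y x) = m (B.fr (B.vt y) s, Ordering.lt)

/-- the structure with arbitrary vertices of the types in `D` -/
def T_SHP : Prop :=
  ∀ (σ : Sig) (V X Θ : Type) [LinearOrder V] (M : ℕ) (B : Bs V X Θ M) (𝔸 : Str σ V)
    (m : X × Ordering → X × Ordering) (D : Set Θ), Blind B 𝔸 ∅ → UM B B 𝔸 𝔸 m →
    (∀ s, tm B B m s = s) → (∀ s ∈ D, (m (B.fr s s, Ordering.lt)).2 = Ordering.eq) →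
    Blind B (shp B 𝔸 D) D ∧ UM B B 𝔸 (shp B 𝔸 D) id ∧ UM B B (shp B 𝔸 D) 𝔸 m

/-- A maximal set of identified types. -/
def T_MAX : Prop :=
  ∀ (σ : Sig) (V X Θ : Type) [LinearOrder V] (M : ℕ) (B : Bs V X Θ M) (𝔸 : Str σ V), NE1 B 𝔸 →
    ∃ (m : X × Ordering → X × Ordering) (D : Set Θ), UM B B 𝔸 𝔸 m ∧ (∀ s, tm B B m s = s) ∧
      (∀ s ∈ D, (m (B.fr s s, Ordering.lt)).2 = Ordering.eq) ∧
      ∀ m', UM B B 𝔸 𝔸 m' → (∀ s, tm B B m' s = s) →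
        (∀ s ∈ D, (m' (B.fr s s, Ordering.lt)).2 = Ordering.eq) →
        ∀ s, (m' (B.fr s s, Ordering.lt)).2 = Ordering.eq → s ∈ D

/-- the properties `NE1` and `NE2` for the structure with arbitrary vertices of types in `D` -/
def T_NEE : Prop :=
  ∀ (σ : Sig) (V X Θ : Type) [LinearOrder V] (M : ℕ) (B : Bs V X Θ M) (𝔸 : Str σ V)
    (m : X × Ordering → X × Ordering) (D : Set Θ), NE1 B 𝔸 → UM B B 𝔸 𝔸 m →
    (∀ s, tm B B m s = s) → (∀ s ∈ D, (m (B.fr s s, Ordering.lt)).2 = Ordering.eq) →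
    (∀ m', UM B B 𝔸 𝔸 m' → (∀ s, tm B B m' s = s) →
      (∀ s ∈ D, (m' (B.fr s s, Ordering.lt)).2 = Ordering.eq) →
      ∀ s, (m' (B.fr s s, Ordering.lt)).2 = Ordering.eq → s ∈ D) →
    UM B B 𝔸 (shp B 𝔸 D) id → UM B B (shp B 𝔸 D) 𝔸 m →
    NE1 B (shp B 𝔸 D) ∧ NE2 B (shp B 𝔸 D) D

/-- composition of a canonical polymorphism with a canonical homomorphism -/
def T_PRE : Prop :=
  ∀ (σ : Sig) (V X Θ : Type) [LinearOrder V] (M : ℕ) (B : Bs V X Θ M) (𝔸 𝔸' : Str σ V)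
    (m : X × Ordering → X × Ordering) (h : (Fin 6 → V) → (Fin 6 → V) → X × Ordering),
    Sit B 𝔸 ∅ h → UM B B 𝔸' 𝔸 m → UM B B 𝔸 𝔸' id →
    ∃ h' : (Fin 6 → V) → (Fin 6 → V) → X × Ordering, PM B 𝔸' h' ∧ TID B ∅ h' ∧ Exa h'

/-- Maps which depend only on the types at the vertices whose types are in `D`. -/
def T_BLD : Prop :=
  ∀ (V X Θ : Type) [LinearOrder V] (M : ℕ) (B : Bs V X Θ M) (D : Set Θ) (I Z : Type) [Finite I]
    (h : (I → V) → (I → V) → Z), TID B ∅ h → ∃ h' : (I → V) → (I → V) → Z, TID B D h' ∧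
      ∀ K : Finset V, ∃ g : V → V, (∀ x ∈ K, B.vt (g x) = B.vt x) ∧
        (∀ x ∈ K, ∀ y ∈ K, B.vt x ∉ D → B.vt y ∉ D → B.ct (g x) (g y) = B.ct x y) ∧
        ∀ v w : I → V, (∀ i, v i ∈ K) → (∀ i, w i ∈ K) →
          h' v w = h (fun i => g (v i)) (fun i => g (w i))

/-- the second step -/
def T_STC : Prop :=
  ∀ (σ : Sig) (V X Θ : Type) [LinearOrder V] (M : ℕ) (B : Bs V X Θ M) (𝔸 : Str σ V) (h),
    Sit B 𝔸 ∅ h → NE1 B 𝔸 → ∃ (D : Set Θ) (𝔸' : Str σ V)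
      (h' : (Fin 6 → V) → (Fin 6 → V) → X × Ordering) (m m' : X × Ordering → X × Ordering),
      Sit B 𝔸' D h' ∧ NE1 B 𝔸' ∧ NE2 B 𝔸' D ∧ UM B B 𝔸 𝔸' m ∧ UM B B 𝔸' 𝔸 m'

/-- unary maps given by blocks: the shape `κ` for the type `s`, generic for the other types -/
def T_UKM : Prop :=
  ∀ (σ : Sig) (V X Θ : Type) [LinearOrder V] (M : ℕ) (B : Bs V X Θ M) (𝔸 : Str σ V) (D : Set Θ)
    (h), Sit B 𝔸 D h → ∀ (κ : Fin 6 → ℕ) (s : Θ), ∃ m, UM B B 𝔸 𝔸 m ∧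
      tm B B m s = tyb B h κ (fun _ => s) ∧ (∀ t, t ≠ s → tm B B m t = tyb B h gen (fun _ => t)) ∧
      ∀ z z' : Fin 6 → V, (∀ l, B.vt (z l) = s) → (∀ l, B.vt (z' l) = s) → ZB B κ z →
        ZB B κ z' → (∀ l l', (z l < z' l' ↔ κ l ≤ κ l') ∧ (z' l < z l' ↔ κ l < κ l')) →
        (∀ l l', B.c (z l) (z' l') = B.fr s s) → m (B.fr s s, Ordering.lt) = h z z'

/-- the types of the values on blocks -/
def T_TYB : Prop :=
  ∀ (V X Θ : Type) [LinearOrder V] (M : ℕ) (B : Bs V X Θ M) (D : Set Θ)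
    (h : (Fin 6 → V) → (Fin 6 → V) → X × Ordering), TID B D h →
    (∀ (κ : Fin 6 → ℕ) (θ : Fin 6 → Θ) (z : Fin 6 → V), ZB B κ z → (∀ l, B.vt (z l) = θ l) →
      B.L (h z z).1 = tyb B h κ θ) ∧
    (Exa h → ∀ r s s', tyb B h (pat r 0 7) (pat r s s') = tyb B h (pat 0 0 7) (pat 0 s s'))

/-- The permutation of the types does not depend on the shape. -/
def T_PRM : Prop :=
  ∀ (σ : Sig) (V X Θ : Type) [LinearOrder V] (M : ℕ) (B : Bs V X Θ M) (𝔸 : Str σ V) (D : Set Θ)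
    (h), Sit B 𝔸 D h → NE1 B 𝔸 → ∀ (κ : Fin 6 → ℕ) (s : Θ),
      tyb B h κ (fun _ => s) = tyb B h gen (fun _ => s)

/-- the third step: normalization -/
def T_STN : Prop :=
  ∀ (σ : Sig) (V X Θ : Type) [LinearOrder V] (M : ℕ) (B : Bs V X Θ M) (𝔸 : Str σ V) (D : Set Θ)
    (h), Sit B 𝔸 D h → NE1 B 𝔸 → NE2 B 𝔸 D → ∃ h', Core B 𝔸 D h'

/-! ### D. Blocks and operations on data -/

/-- Blocks of vertices of a type which is not in `D`, without common vertices, are not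
identified. -/
def T_NCT : Prop :=
  ∀ (σ : Sig) (V X Θ : Type) [LinearOrder V] (M : ℕ) (B : Bs V X Θ M) (𝔸 : Str σ V) (D : Set Θ)
    (h), Sit B 𝔸 D h → NE2 B 𝔸 D → ∀ (κ κ' : Fin 6 → ℕ) (s : Θ) (z z' : Fin 6 → V), s ∉ D →
      (∀ l, B.vt (z l) = s) → (∀ l, B.vt (z' l) = s) → ZB B κ z → ZB B κ' z' →
      (∀ l l', z l ≠ z' l') → (h z z').2 ≠ Ordering.eq

/-- operations on data from canonical polymorphisms, for shapes which depend on the types -/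
def T_SOL : Prop :=
  ∀ (σ : Sig) (V X Θ : Type) [LinearOrder V] (M : ℕ) (B : Bs V X Θ M) (𝔸 : Str σ V) (D : Set Θ),
    Blind B 𝔸 D → ∀ (I : Type) [Finite I] (n : ℕ) (lam : I → Fin n) (ℓ : Θ → I → ℕ)
      (supp : ℕ → Set I), (∀ s l, l ∈ supp (ℓ s l)) →
      (∀ s l, ∀ l' ∈ supp (ℓ s l), lam l' = lam l) → ∀ (Q : (I → Θ) → Prop)
      (h : (I → V) → (I → V) → Ot X Θ), PMo B 𝔸 D Q h → TID B D h →
      ∃ φ : (Fin n → Dt X Θ) → Ot X Θ, OLO B 𝔸 D (fun θ => Q (fun l => θ (lam l))) φ ∧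
        ∀ (P R : Type) [Finite P] [LinearOrder R] (x : Fin n → P → V) (Λ : Fin n → P → ℕ)
          (ρ : P → I → R) (z : P → I → V), (∀ m, Rnk B D (x m) (Λ m)) →
          Cfg B (fun a l => x (lam l) a) (fun a l => ℓ (B.vt (x (lam l) a)) l) ρ supp z →
          (∀ a b l l', ℓ (B.vt (x (lam l) a)) l = ℓ (B.vt (x (lam l') b)) l' →
            B.vt (x (lam l) a) ∉ D → B.vt (x (lam l') b) ∉ D →
            (ρ a l < ρ b l' ↔ Λ (lam l) a < Λ (lam l) b)) →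
          ∀ a b, h (z a) (z b) = φ (fun m => dat B D (x m) (Λ m) a b)

/-- the full relation -/
def T_OLK : Prop :=
  ∀ (σ : Sig) (V X Θ : Type) [LinearOrder V] (M : ℕ) (B : Bs V X Θ M) (𝔸 : Str σ V) (D : Set Θ)
    (n : ℕ) (Q : (Fin n → Θ) → Prop) (φ : (Fin n → Dt X Θ) → Ot X Θ), OLO B 𝔸 D Q φ →
    ∀ (k : ℕ) (x : Fin n → Fin k → V) (L : Fin n → Fin k → ℕ), 1 ≤ k → k ≤ M →
      (∀ m, Rnk B D (x m) (L m)) → (∀ a, Q (fun m => B.vt (x m a))) →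
      ∃ y : Fin k → V, ∀ a b, out B D y a b = φ (fun m => dat B D (x m) (L m) a b)

/-- tame operations: the same types -/
def T_TM2 : Prop :=
  ∀ (σ : Sig) (V X Θ : Type) [LinearOrder V] (M : ℕ) (B : Bs V X Θ M) (𝔸 : Str σ V) (D : Set Θ)
    (n : ℕ) (Q : (Fin n → Θ) → Prop) (φ : (Fin n → Dt X Θ) → Ot X Θ), OLO B 𝔸 D Q φ →
    ∃ J : (Fin n → Θ) → Set (Fin n), (∀ θ, ∀ m ∈ J θ, θ m ∉ D) ∧
      ∀ θ, Q θ → ty D φ θ ∉ D → ∀ (x : Fin n → Fin 2 → V) (L : Fin n → Fin 2 → ℕ),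
        (∀ m, Rnk B D (x m) (L m)) → (∀ m a, B.vt (x m a) = θ m) →
        ((φ (fun m => dat B D (x m) (L m) 0 1)).2 = some none ↔ ∀ m ∈ J θ, x m 0 = x m 1)

/-- tame operations: different types -/
def T_TM3 : Prop :=
  ∀ (σ : Sig) (V X Θ : Type) [LinearOrder V] (M : ℕ) (B : Bs V X Θ M) (𝔸 : Str σ V) (D : Set Θ)
    (n : ℕ) (Q : (Fin n → Θ) → Prop) (φ : (Fin n → Dt X Θ) → Ot X Θ), OLO B 𝔸 D Q φ →
    ∀ J : (Fin n → Θ) → Set (Fin n), (∀ θ, ∀ m ∈ J θ, θ m ∉ D) →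
      (∀ θ, Q θ → ty D φ θ ∉ D → ∀ (x : Fin n → Fin 2 → V) (L : Fin n → Fin 2 → ℕ),
        (∀ m, Rnk B D (x m) (L m)) → (∀ m a, B.vt (x m a) = θ m) →
        ((φ (fun m => dat B D (x m) (L m) 0 1)).2 = some none ↔ ∀ m ∈ J θ, x m 0 = x m 1)) →
      ∃ E : (Fin n → Θ) → (Fin n → Θ) → Prop, Tame B D Q φ J E

/-! ### E. From orders to families and tournaments -/

/-- the beginning -/
def T_LF0 : Prop :=
  ∀ (σ : Sig) (V X Θ : Type) [LinearOrder V] (M : ℕ) (B : Bs V X Θ M) (𝔸 : Str σ V) (D : Set Θ)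
    (n : ℕ) (Q : (Fin n → Θ) → Prop) (φ : (Fin n → Dt X Θ) → Ot X Θ) (J : (Fin n → Θ) → Set (Fin n))
    (E : (Fin n → Θ) → (Fin n → Θ) → Prop), OLO B 𝔸 D Q φ → Tame B D Q φ J E →
    ∃ ψ, Semi B 𝔸 D Q φ J E ∅ ψ

/-- one more argument -/
def T_LF1 : Prop :=
  ∀ (σ : Sig) (V X Θ : Type) [LinearOrder V] (M : ℕ) (B : Bs V X Θ M) (𝔸 : Str σ V) (D : Set Θ)
    (n : ℕ) (Q : (Fin n → Θ) → Prop) (φ : (Fin n → Dt X Θ) → Ot X Θ) (J : (Fin n → Θ) → Set (Fin n))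
    (E : (Fin n → Θ) → (Fin n → Θ) → Prop), Tame B D Q φ J E → CycAll B 𝔸 D →
    ∀ (S : Set (Fin n)) (m₀ : Fin n), (∃ ψ, Semi B 𝔸 D Q φ J E S ψ) →
      ∃ ψ, Semi B 𝔸 D Q φ J E (insert m₀ S) ψ

/-- the end -/
def T_LF2 : Prop :=
  ∀ (σ : Sig) (V X Θ : Type) [LinearOrder V] (M : ℕ) (B : Bs V X Θ M) (𝔸 : Str σ V) (D : Set Θ)
    (n : ℕ) (Q : (Fin n → Θ) → Prop) (φ : (Fin n → Dt X Θ) → Ot X Θ) (J : (Fin n → Θ) → Set (Fin n))
    (E : (Fin n → Θ) → (Fin n → Θ) → Prop) (ψ : (Fin n → Te X Θ) → Bool → X),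
    Tame B D Q φ J E → Semi B 𝔸 D Q φ J E Set.univ ψ → ∃ F : (Fin n → Te X Θ) → Te X Θ,
      (∀ (s : Option (Fin σ.m)) (q : Fin n → Fin (arP σ M s) × Fin (arP σ M s) → Te X Θ),
        (∀ i, FamT B 𝔸 D s (q i)) → (∀ e, Q (fun m => (q m e).1.1)) →
        FamT B 𝔸 D s (fun e => F (fun m => q m e))) ∧ OnT F (ty D φ) ∧
      (∀ z, (F z).2 = none ↔
        ty D φ (fun m => (z m).1.1) ∈ D ∨ ty D φ (fun m => (z m).1.2) ∈ D) ∧
      ∀ z, (F z).2 = some none ↔ (ty D φ (fun m => (z m).1.1) ∉ D ∧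
        ty D φ (fun m => (z m).1.2) ∉ D ∧ E (fun m => (z m).1.1) (fun m => (z m).1.2) ∧
        ∀ m ∈ J (fun m => (z m).1.1), (z m).2 = some none)

/-! ### F. The cyclic operation -/

/-- The typed injective part is a structure of the kind of the table GC. -/
def T_STA : Prop :=
  ∀ (σ : Sig) (V X Θ : Type) [LinearOrder V] [Finite Θ] (M : ℕ) (B : Bs V X Θ M) (𝔸 : Str σ V)
    (D : Set Θ), Blind B 𝔸 D → Setup (typS B 𝔸 D) M B.c (fun a b => B.fr (B.L a) (B.L b))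
      (fun t => B.fr (B.L t) (B.L t)) (fun t => B.fr (B.Rt t) (B.Rt t))

/-- the map on pairs for the typed injective part -/
def T_BKT : Prop :=
  ∀ (σ : Sig) (V X Θ : Type) [LinearOrder V] [Finite Θ] (M : ℕ) (B : Bs V X Θ M) (𝔸 : Str σ V)
    (D : Set Θ) (h), Core B 𝔸 D h →
    ∃ h' : (Fin 6 → V) → (Fin 6 → V) → X, GoodMap (typS B 𝔸 D) M B.c h'

/-- cyclic operations -/
def T_DDT : Prop :=
  ∀ (σ : Sig) (V X Θ : Type) [LinearOrder V] [Finite Θ] (M : ℕ) (B : Bs V X Θ M) (𝔸 : Str σ V)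
    (D : Set Θ), Blind B 𝔸 D → ∀ (p : ℕ) (H : (ZMod p → X × Bool) → X × Bool),
      IsPoly (template (typS B 𝔸 D) M B.c) (template (typS B 𝔸 D) M B.c) H →
      (∀ x, H (fun i => x (i + 1)) = H x) →
      CycW B 𝔸 D p (fun q => (H (fun i => (q i, false))).1)

/-! ### G. The injection for pairs of the same type -/

/-- a minimal set of pairs -/
def T_MIN : Prop :=
  ∀ (σ : Sig) (V X Θ : Type) [LinearOrder V] (M : ℕ) (B : Bs V X Θ M) (𝔸 : Str σ V) (D : Set Θ),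
    ¬ InjP B 𝔸 D → ∃ (n : ℕ) (q : Fin n → V) (γ₀ γ₁ : Fin n × Fin n → V)
      (p₀ p₀' p₁ p₁' : Fin n × Fin n) (U : Set ((Fin n × Fin n) × (Fin n × Fin n))),
      MinU B 𝔸 D q γ₀ γ₁ p₀ p₀' p₁ p₁' U

/-- the determining positions -/
def T_JKS : Prop :=
  ∀ (σ : Sig) (V X Θ : Type) [LinearOrder V] (M : ℕ) (B : Bs V X Θ M) (𝔸 : Str σ V) (D : Set Θ)
    (h), Core B 𝔸 D h → ∀ (κ : Fin 6 → ℕ) (s : Θ), s ∉ D → ∃ J, JS B h κ s J

/-- Blocks with different determining entries have different values. -/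
def T_SEP : Prop :=
  ∀ (σ : Sig) (V X Θ : Type) [LinearOrder V] (M : ℕ) (B : Bs V X Θ M) (𝔸 : Str σ V) (D : Set Θ)
    (h), Core B 𝔸 D h → ∀ (κ κ' : Fin 6 → ℕ) (s : Θ) (J J' : Set (Fin 6)) (v v' : Fin 6 → V),
      s ∉ D → JS B h κ s J → JS B h κ' s J' → (∀ l, B.vt (v l) = s) → (∀ l, B.vt (v' l) = s) →
      ZB B κ v → ZB B κ' v' → (∀ l ∈ J, ∀ l' ∈ J', v l ≠ v' l') → (h v v').2 ≠ Ordering.eq

/-- The determining letters of the special blocks do not depend on the pattern `r`. -/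
def T_LET : Prop :=
  ∀ (σ : Sig) (V X Θ : Type) [LinearOrder V] (M : ℕ) (B : Bs V X Θ M) (𝔸 : Str σ V) (D : Set Θ)
    (h), Core B 𝔸 D h → ∀ s, s ∉ D → ∀ J : Fin 3 → Set (Fin 6),
      (∀ r, JS B h (pat r 0 7) s (J r)) → ∃ b : Set ℕ, (∃ i ∈ b, i = 0 ∨ i = 7) ∧
        ∀ r l, l ∈ J r ↔ (pat r 0 7 l : ℕ) ∈ b

/-- composition with copies of the two polymorphisms -/
def T_CMQ : Prop :=
  ∀ (σ : Sig) (V X Θ : Type) [LinearOrder V] (M : ℕ) (B : Bs V X Θ M) (𝔸 : Str σ V) (D : Set Θ)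
    (h), Core B 𝔸 D h → ∀ (n : ℕ) (q : Fin n → V) (γ₀ γ₁ : Fin n × Fin n → V)
      (p₀ p₀' p₁ p₁' : Fin n × Fin n) (U : Set ((Fin n × Fin n) × (Fin n × Fin n))),
      MinU B 𝔸 D q γ₀ γ₁ p₀ p₀' p₁ p₁' U → ∀ (S : Set (Fin 6)) (z : Fin n × Fin n → Fin 6 → V),
        (∀ l, SameD B ∅ (if l ∈ S then γ₀ else γ₁) (fun p => z p l)) →
        (∀ p, Pu B q p → ∃ κ, ZB B κ (z p)) →
        (∀ u ∈ U, γ₀ u.1 ≠ γ₀ u.2 → γ₁ u.1 ≠ γ₁ u.2 → ∀ l l', z u.1 l ≠ z u.2 l') →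
        (h (z p₀) (z p₀')).2 = Ordering.eq ∨ (h (z p₁) (z p₁')).2 = Ordering.eq

/-- Case A: two determining levels. -/
def T_CSA : Prop :=
  ∀ (σ : Sig) (V X Θ : Type) [LinearOrder V] (M : ℕ) (B : Bs V X Θ M) (𝔸 : Str σ V) (D : Set Θ)
    (h), Core B 𝔸 D h → ∀ (n : ℕ) (q : Fin n → V) (γ₀ γ₁ : Fin n × Fin n → V)
      (p₀ p₀' p₁ p₁' : Fin n × Fin n) (U : Set ((Fin n × Fin n) × (Fin n × Fin n))),
      MinU B 𝔸 D q γ₀ γ₁ p₀ p₀' p₁ p₁' U → B.vt (q p₁.1) = B.vt (q p₀.1) →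
      ∀ (κ : Fin 6 → ℕ) (J : Set (Fin 6)), JS B h κ (B.vt (q p₀.1)) J →
        ∀ l ∈ J, ∀ l' ∈ J, κ l = κ l'

/-- Case B: one type, one determining level. -/
def T_CSB : Prop :=
  ∀ (σ : Sig) (V X Θ : Type) [LinearOrder V] (M : ℕ) (B : Bs V X Θ M) (𝔸 : Str σ V) (D : Set Θ)
    (h), Core B 𝔸 D h → ∀ (n : ℕ) (q : Fin n → V) (γ₀ γ₁ : Fin n × Fin n → V)
      (p₀ p₀' p₁ p₁' : Fin n × Fin n) (U : Set ((Fin n × Fin n) × (Fin n × Fin n))),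
      MinU B 𝔸 D q γ₀ γ₁ p₀ p₀' p₁ p₁' U → B.vt (q p₁.1) = B.vt (q p₀.1) →
      (∀ (κ : Fin 6 → ℕ) (J : Set (Fin 6)), JS B h κ (B.vt (q p₀.1)) J →
        ∀ l ∈ J, ∀ l' ∈ J, κ l = κ l') → False

/-- Case C: two types. -/
def T_CSC : Prop :=
  ∀ (σ : Sig) (V X Θ : Type) [LinearOrder V] (M : ℕ) (B : Bs V X Θ M) (𝔸 : Str σ V) (D : Set Θ)
    (h), Core B 𝔸 D h → ∀ (n : ℕ) (q : Fin n → V) (γ₀ γ₁ : Fin n × Fin n → V)
      (p₀ p₀' p₁ p₁' : Fin n × Fin n) (U : Set ((Fin n × Fin n) × (Fin n × Fin n))),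
      MinU B 𝔸 D q γ₀ γ₁ p₀ p₀' p₁ p₁' U → B.vt (q p₁.1) = B.vt (q p₀.1)

/-- a map which is injective on the pairs of vertices of the same type -/
def InjM {V X Θ : Type} {M : ℕ} [LinearOrder V] (B : Bs V X Θ M) (D : Set Θ)
    (h : (Fin 2 → V) → (Fin 2 → V) → Ot X Θ) : Prop :=
  ∀ v w : Fin 2 → V, B.vt (v 0) = B.vt (v 1) → B.vt (w 0) = B.vt (w 1) →
    (h v w).1 = (B.vt (v 0), B.vt (w 0)) ∧
    (B.vt (v 0) ∉ D → B.vt (w 0) ∉ D → ((h v w).2 = some none ↔ v = w))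

/-- the limit of the binary polymorphisms -/
def T_LMT : Prop :=
  ∀ (σ : Sig) (V X Θ : Type) [LinearOrder V] (M : ℕ) (B : Bs V X Θ M) (𝔸 : Str σ V) (D : Set Θ),
    Blind B 𝔸 D → InjP B 𝔸 D → ∃ h, PMo B 𝔸 D (fun θ : Fin 2 → Θ => θ 0 = θ 1) h ∧ InjM B D h

/-- canonization -/
def T_CN2 : Prop :=
  ∀ (σ : Sig) (V X Θ : Type) [LinearOrder V] (M : ℕ) (B : Bs V X Θ M) (𝔸 : Str σ V) (D : Set Θ),
    Blind B 𝔸 D → RamseyFin B.c → ∀ h, PMo B 𝔸 D (fun θ : Fin 2 → Θ => θ 0 = θ 1) h →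
      InjM B D h → ∃ h', PMo B 𝔸 D (fun θ : Fin 2 → Θ => θ 0 = θ 1) h' ∧ InjM B D h' ∧ TID B D h'

/-- the injection as an operation on data -/
def T_TMP : Prop :=
  ∀ (σ : Sig) (V X Θ : Type) [LinearOrder V] (M : ℕ) (B : Bs V X Θ M) (𝔸 : Str σ V) (D : Set Θ),
    Blind B 𝔸 D → ∀ h, PMo B 𝔸 D (fun θ : Fin 2 → Θ => θ 0 = θ 1) h → InjM B D h → TID B D h →
      ∃ φ : (Fin 2 → Dt X Θ) → Ot X Θ, OLO B 𝔸 D (fun θ => θ 0 = θ 1) φ ∧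
        (∀ θ : Fin 2 → Θ, θ 0 = θ 1 → ty D φ θ = θ 0) ∧
        Tame B D (fun θ => θ 0 = θ 1) φ (fun _ => Set.univ)
          (fun θ θ' => θ 0 = θ 1 ∧ θ' = θ ∧ θ 0 ∉ D)

/-- iteration -/
def T_ITT : Prop :=
  ∀ (σ : Sig) (V X Θ : Type) [LinearOrder V] (M : ℕ) (B : Bs V X Θ M) (𝔸 : Str σ V) (D : Set Θ)
    (H : (Fin 2 → Te X Θ) → Te X Θ), PurT B 𝔸 D H → ∀ (p : ℕ), 0 < p →
      ∃ H' : (ZMod p → Te X Θ) → Te X Θ, PurT B 𝔸 D H'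

/-! ### H. The types of vertices -/

/-- operations of the template which act on the types of vertices -/
def T_VOP : Prop :=
  ∀ (σ : Sig) (V X Θ : Type) [LinearOrder V] (M : ℕ) (B : Bs V X Θ M) (𝔸 : Str σ V) (D : Set Θ)
    (h), Core B 𝔸 D h →
    (∃ φ : (Fin 6 → Dt X Θ) → Ot X Θ, OLO B 𝔸 D (fun _ => True) φ ∧
      ∀ θ, ty D φ θ = tyb B h gen θ) ∧
    ∀ (r : Fin 3) (S₀ S₁ : Set Θ), ∃ φ : (Fin 2 → Dt X Θ) → Ot X Θ,
      OLO B 𝔸 D (fun _ => True) φ ∧ ∀ θ : Fin 2 → Θ,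
        ty D φ θ = tyb B h (lv S₀ S₁ r (θ 0) (θ 1)) (pat r (θ 0) (θ 1))

section algebra

open Pool.Agent.H58.CT

/-- two-element factors on which all operations are projections -/
def T_HSL : Prop :=
  ∀ (Θ : Type) [Finite Θ] (𝒞 : Cln) [Alg 𝒞 Θ] (ι : ∀ (I : Type) [Finite I], 𝒞.T I → I),
    (∀ (I : Type) [Finite I] (i : I), ι I (𝒞.pr i) = i) →
    (∀ (I J : Type) [Finite I] [Finite J] (t : 𝒞.T I) (s : I → 𝒞.T J),
      ι J (𝒞.comp t s) = ι J (s (ι I t))) →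
    (∀ (I : Type) [Finite I] (t t' : 𝒞.T I), (∀ x : I → Θ, Alg.int t x = Alg.int t' x) →
      ι I t = ι I t') →
    ∃ (D : Set Θ) (χ : Θ → Bool), (∃ a ∈ D, χ a = false) ∧ (∃ a ∈ D, χ a = true) ∧
      ∀ (I : Type) [Finite I] (t : 𝒞.T I) (x : I → Θ), (∀ i, x i ∈ D) →
        Alg.int t x ∈ D ∧ χ (Alg.int t x) = χ (x (ι I t))

/-- The operations on the types of vertices have no homomorphism to the projections. -/
def T_VTX : Prop :=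
  ∀ (Θ : Type) [Finite Θ] (𝒞 : Cln) [Alg 𝒞 Θ] (tb : (Fin 6 → ℕ) → (Fin 6 → Θ) → Θ),
    (∀ (r : Fin 3) (s s' : Θ), tb (pat r 0 7) (pat r s s') = tb (pat 0 0 7) (pat 0 s s')) →
    (∃ t : 𝒞.T (Fin 6), ∀ θ : Fin 6 → Θ, Alg.int t θ = tb gen θ) →
    (∀ (r : Fin 3) (S₀ S₁ : Set Θ), ∃ t : 𝒞.T (Fin 2), ∀ θ : Fin 2 → Θ,
      Alg.int t θ = tb (lv S₀ S₁ r (θ 0) (θ 1)) (pat r (θ 0) (θ 1))) →
    NoPrjOn 𝒞 (fun _ : Unit => Θ)

end algebra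

/-! ### I. The template -/

/-- the cyclic polymorphism -/
def T_CYT : Prop :=
  ∀ (σ : Sig) (V X Θ : Type) [LinearOrder V] (M : ℕ) (B : Bs V X Θ M) (𝔸 : Str σ V) (D : Set Θ)
    (p : ℕ) (w : (ZMod p → X) → X), p.Prime → 2 < p → CycW B 𝔸 D p w →
    ∀ (G : (ZMod p → Te X Θ) → Te X Θ) (g : (ZMod p → Θ) → Θ), PolT B 𝔸 D G → OnT G g →
      (∀ θ, g (fun i => θ (i + 1)) = g θ) → ∀ H : (ZMod p → Te X Θ) → Te X Θ, PurT B 𝔸 D H →
      ∃ u : (ZMod p → Te X Θ) → Te X Θ, PolT B 𝔸 D u ∧ ∀ z, u (fun i => z (i + 1)) = u z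

/-- correctness of the reduction -/
def T_RE1 : Prop :=
  ∀ (σ : Sig) (V X Θ : Type) [LinearOrder V] (M : ℕ) (B : Bs V X Θ M) (𝔸 : Str σ V) (D : Set Θ),
    Blind B 𝔸 D → ∀ (n : ℕ) (𝕏 : Str σ (Fin n)), (∃ f, IsHom 𝕏 𝔸 f) ↔
      ∃ q : Fin n → Fin n → Te X Θ,
        ∀ (s : Option (Fin σ.m)) (y : Fin (arP σ M s) → Fin n), relP 𝕏 M s y →
          FamT B 𝔸 D s (fun e => q (y e.1) (y e.2))

/-- the reduction -/
def T_RED : Prop :=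
  ∀ (σ : Sig) (V X Θ : Type) [LinearOrder V] (M : ℕ) (B : Bs V X Θ M) (𝔸 : Str σ V) (D : Set Θ),
    Blind B 𝔸 D → N793a5b8e.ManyOneReducible (CSP 𝔸) (CSP (tplT B 𝔸 D))

/-! ### J. Structures with free amalgamation in a binary language -/

/-- the coloured order of a structure with free amalgamation -/
def T_BAS : Prop :=
  ∀ (τ σ : Sig) (B₀ : Type) [Countable B₀] [Nonempty B₀] (𝔹 : Str τ B₀) (𝔸 : Str σ B₀),
    (∀ l, 1 ≤ τ.ar l ∧ τ.ar l ≤ 2) → Homogeneous 𝔹 → FinitelyBounded 𝔹 → FreeAmalgamation 𝔹 →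
    (∀ g : B₀ ≃ B₀, IsAut 𝔹 g → IsAut 𝔸 g) →
    ∃ (M : ℕ) (X Θ : Type) (_ : LinearOrder B₀) (B : Bs B₀ X Θ M), Blind B 𝔸 ∅

end Pool.Agent.H58.SO
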