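import Pool.Agent.H58.SO.Targets

/-!
# Several orbits of vertices: basic facts
-/

set_option autoImplicit false
set_option linter.unusedVariables false

namespace Pool.Agent.H58.SO

open Pool.Agent.H68.BP Pool.Agent.H58.SF Pool.Agent.H53.GC Pool.Agent.H53.NR
open Classical

section basic

variable {V X Θ : Type} {M : ℕ} [LinearOrder V]

theorem Bs.inv_inv (B : Bs V X Θ M) (t : X) : B.inv (B.inv t) = t := by
  obtain ⟨x, y, rfl⟩ := B.surjX t
  rw [← B.sym x y, ← B.sym y x]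

theorem Bs.L_inv (B : Bs V X Θ M) (t : X) : B.L (B.inv t) = B.Rt t := by
  obtain ⟨x, y, rfl⟩ := B.surjX t
  rw [← B.sym x y, B.left, B.right]

theorem Bs.Rt_inv (B : Bs V X Θ M) (t : X) : B.Rt (B.inv t) = B.L t := by
  obtain ⟨x, y, rfl⟩ := B.surjX t
  rw [← B.sym x y, B.left, B.right]

theorem Bs.c_congr_symm (B : Bs V X Θ M) {x y x' y' : V}
    (h : B.c x y = B.c x' y') : B.c y x = B.c y' x' := by
  rw [B.sym x y, B.sym x' y', h]

theorem Bs.vt_of_c (B : Bs V X Θ M) {x y x' y' : V} (h : B.c x y = B.c x' y') :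
    B.vt x = B.vt x' ∧ B.vt y = B.vt y' := by
  refine ⟨?_, ?_⟩
  · rw [← B.left x y, ← B.left x' y', h]
  · rw [← B.right x y, ← B.right x' y', h]

@[simp] theorem Bs.ct_fst (B : Bs V X Θ M) (x y : V) : (B.ct x y).1 = B.c x y := rfl

@[simp] theorem Bs.ct_snd (B : Bs V X Θ M) (x y : V) : (B.ct x y).2 = cmp x y := rfl

theorem Bs.ct_snd_eq (B : Bs V X Θ M) (x y : V) : (B.ct x y).2 = Ordering.eq ↔ x = y :=
  cmp_eq_eq_iff x y

theorem Bs.ct_snd_lt (B : Bs V X Θ M) (x y : V) : (B.ct x y).2 = Ordering.lt ↔ x < y :=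
  cmp_eq_lt_iff x y

theorem Bs.ct_snd_gt (B : Bs V X Θ M) (x y : V) : (B.ct x y).2 = Ordering.gt ↔ y < x :=
  cmp_eq_gt_iff x y

theorem Bs.ct_self (B : Bs V X Θ M) (x : V) :
    B.ct x x = (B.fr (B.vt x) (B.vt x), Ordering.eq) := by
  refine Prod.ext (B.diag x) ?_
  exact (B.ct_snd_eq x x).2 rfl

theorem cmp_eq_cmp_iff' {V V' : Type} [LinearOrder V] [LinearOrder V'] {x y : V} {x' y' : V'} :
    cmp x y = cmp x' y' ↔ (x < y ↔ x' < y') ∧ (y < x ↔ y' < x') := by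
  constructor
  · intro h
    rw [← cmp_eq_lt_iff, ← cmp_eq_lt_iff, ← cmp_eq_gt_iff, ← cmp_eq_gt_iff, h]
    exact ⟨Iff.rfl, Iff.rfl⟩
  · rintro ⟨h1, h2⟩
    rcases lt_trichotomy x y with h | h | h
    · rw [(cmp_eq_lt_iff x y).2 h, (cmp_eq_lt_iff x' y').2 (h1.1 h)]
    · subst h
      have h3 : ¬ x' < y' := fun h3 => lt_irrefl x (h1.2 h3)
      have h4 : ¬ y' < x' := fun h4 => lt_irrefl x (h2.2 h4)
      have h5 : x' = y' := le_antisymm (not_lt.1 h4) (not_lt.1 h3)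
      rw [(cmp_eq_eq_iff x x).2 rfl, (cmp_eq_eq_iff x' y').2 h5]
    · rw [(cmp_eq_gt_iff x y).2 h, (cmp_eq_gt_iff x' y').2 (h2.1 h)]

theorem Bs.ct_eq_ct (B : Bs V X Θ M) {x y x' y' : V} :
    B.ct x y = B.ct x' y' ↔ B.c x y = B.c x' y' ∧ (x < y ↔ x' < y') ∧ (y < x ↔ y' < x') := by
  constructor
  · intro h
    exact ⟨congrArg Prod.fst h, cmp_eq_cmp_iff'.1 (congrArg Prod.snd h)⟩
  · rintro ⟨h1, h2⟩
    exact Prod.ext h1 (cmp_eq_cmp_iff'.2 h2)

/-- the reversed pair -/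
theorem Bs.ct_symm (B : Bs V X Θ M) {x y x' y' : V} (h : B.ct x y = B.ct x' y') :
    B.ct y x = B.ct y' x' := by
  rw [B.ct_eq_ct] at h ⊢
  refine ⟨?_, h.2.2, h.2.1⟩
  rw [B.sym x y, B.sym x' y', h.1]

theorem Bs.ct_eq_imp (B : Bs V X Θ M) {x y x' y' : V} (h : B.ct x y = B.ct x' y') :
    (x = y ↔ x' = y') ∧ B.vt x = B.vt x' ∧ B.vt y = B.vt y' := by
  refine ⟨?_, B.vt_of_c (congrArg Prod.fst h)⟩
  rw [← B.ct_snd_eq, ← B.ct_snd_eq, h]

variable {B : Bs V X Θ M} {D : Set Θ} {I : Type}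

theorem SameD.refl (x : I → V) : SameD B D x x :=
  ⟨fun _ => rfl, fun _ _ _ _ => ⟨Iff.rfl, rfl⟩⟩

theorem SameD.symm {x y : I → V} (h : SameD B D x y) : SameD B D y x := by
  refine ⟨fun a => (h.1 a).symm, fun a b ha hb => ?_⟩
  rw [h.1 a] at ha
  rw [h.1 b] at hb
  exact ⟨(h.2 a b ha hb).1.symm, (h.2 a b ha hb).2.symm⟩

theorem SameD.trans {x y z : I → V} (h : SameD B D x y) (h' : SameD B D y z) :
    SameD B D x z := by
  refine ⟨fun a => (h'.1 a).trans (h.1 a), fun a b ha hb => ?_⟩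
  have h1 := h.2 a b ha hb
  rw [← h.1 a] at ha
  rw [← h.1 b] at hb
  have h2 := h'.2 a b ha hb
  exact ⟨h2.1.trans h1.1, h2.2.trans h1.2⟩

theorem SameD.mono {x y : I → V} {D' : Set Θ} (h : SameD B D x y) (hD : D ⊆ D') :
    SameD B D' x y :=
  ⟨h.1, fun a b ha hb => h.2 a b (fun h' => ha (hD h')) (fun h' => hb (hD h'))⟩

theorem SameD.comp {J : Type} {x y : I → V} (h : SameD B D x y) (f : J → I) :
    SameD B D (fun j => x (f j)) (fun j => y (f j)) :=
  ⟨fun a => h.1 (f a), fun a b => h.2 (f a) (f b)⟩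

theorem SameO.comp {J : Type} {x y : I → V} (h : SameO B D x y) (f : J → I) :
    SameO B D (fun j => x (f j)) (fun j => y (f j)) :=
  ⟨fun a => h.1 (f a), fun a b => h.2 (f a) (f b)⟩

theorem SameO.sameD {x y : I → V} (h : SameO B D x y) : SameD B D x y :=
  ⟨h.1, fun a b ha hb => ⟨(B.ct_eq_imp (h.2 a b ha hb)).1, congrArg Prod.fst (h.2 a b ha hb)⟩⟩

theorem sameO_of_ct {x y : I → V} (h : ∀ a b, B.ct (y a) (y b) = B.ct (x a) (x b)) :
    SameO B D x y :=
  ⟨fun a => (B.ct_eq_imp (h a a)).2.1, fun a b _ _ => h a b⟩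

theorem sameD_of_ct {x y : I → V} (h : ∀ a b, B.ct (y a) (y b) = B.ct (x a) (x b)) :
    SameD B D x y :=
  (sameO_of_ct h).sameD

theorem sameO_empty {x y : I → V} :
    SameO B ∅ x y ↔ ∀ a b, B.ct (y a) (y b) = B.ct (x a) (x b) :=
  ⟨fun h a b => h.2 a b (fun h => h) (fun h => h), sameO_of_ct⟩

theorem SameO.ctEmpty {x y : I → V} (h : SameO B ∅ x y) (a b : I) :
    B.ct (y a) (y b) = B.ct (x a) (x b) :=
  h.2 a b (fun h => h) (fun h => h)

theorem TID.mono {Z : Type} {h : (I → V) → (I → V) → Z} {D' : Set Θ} (hD : D' ⊆ D)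
    (ht : TID B D h) : TID B D' h :=
  fun v w v' w' hs => ht v w v' w'
    ⟨hs.1, fun a b ha hb => hs.2 a b (fun h' => ha (hD h')) (fun h' => hb (hD h'))⟩

theorem ZA.left {κ : I → ℕ} {z z' : I → V} (h : ZA B κ z z') : ZB B κ z :=
  fun l l' => ⟨fun he => (h.eq l l' he).1, fun hl => ⟨(h.lt l l' hl).1, (h.free l l' hl).1⟩⟩

theorem ZA.right {κ : I → ℕ} {z z' : I → V} (h : ZA B κ z z') : ZB B κ z' :=
  fun l l' => ⟨fun he => (h.eq l l' he).2,
    fun hl => ⟨(h.lt l l' hl).2.2.2, (h.free l l' hl).2.2.2⟩⟩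

theorem ZA.symm {κ : I → ℕ} {z z' : I → V} (h : ZA B κ z z') : ZA B κ z' z :=
  ⟨fun l l' he => ⟨(h.eq l l' he).2, (h.eq l l' he).1⟩,
    fun l l' hl => ⟨(h.lt l l' hl).2.2.2, (h.lt l l' hl).2.2.1, (h.lt l l' hl).2.1,
      (h.lt l l' hl).1⟩,
    fun l l' hl => ⟨(h.free l l' hl).2.2.2, (h.free l l' hl).2.2.1, (h.free l l' hl).2.1,
      (h.free l l' hl).1⟩⟩

/-- the order in a block -/
theorem ZB.lt_iff {κ : I → ℕ} {z : I → V} (h : ZB B κ z) (l l' : I) :
    z l < z l' ↔ κ l < κ l' := by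
  rcases lt_trichotomy (κ l) (κ l') with h1 | h1 | h1
  · exact ⟨fun _ => h1, fun _ => ((h l l').2 h1).1⟩
  · rw [(h l l').1 h1, h1]
    simp
  · have h2 := ((h l' l).2 h1).1
    exact ⟨fun h3 => absurd h3 (lt_asymm h2), fun h3 => absurd h3 (lt_asymm h1)⟩

theorem ZB.eq_iff {κ : I → ℕ} {z : I → V} (h : ZB B κ z) (l l' : I) :
    z l = z l' ↔ κ l = κ l' := by
  constructor
  · intro h1
    by_contra h2
    rcases lt_or_gt_of_ne h2 with h3 | h3
    · exact absurd h1 (ne_of_lt ((h.lt_iff l l').2 h3))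
    · exact absurd h1 (ne_of_gt ((h.lt_iff l' l).2 h3))
  · exact (h l l').1

theorem ZB.free {κ : I → ℕ} {z : I → V} (h : ZB B κ z) (l l' : I) :
    B.c (z l) (z l') = B.fr (B.vt (z l)) (B.vt (z l')) := by
  rcases lt_trichotomy (κ l) (κ l') with h1 | h1 | h1
  · exact ((h l l').2 h1).2
  · rw [(h l l').1 h1]
    exact B.diag _
  · rw [B.sym (z l') (z l), ((h l' l).2 h1).2, B.frI]

/-- Two blocks of the same shape with the same types look alike. -/
theorem ZB.ct_eq {κ : I → ℕ} {z z' : I → V} (h : ZB B κ z) (h' : ZB B κ z')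
    (ht : ∀ l, B.vt (z' l) = B.vt (z l)) (l l' : I) :
    B.ct (z' l) (z' l') = B.ct (z l) (z l') := by
  rw [B.ct_eq_ct, h.free, h'.free, h.lt_iff, h'.lt_iff, h.lt_iff, h'.lt_iff, ht l, ht l']
  exact ⟨rfl, Iff.rfl, Iff.rfl⟩

section cfg

variable {P R : Type} [LinearOrder R] {x : P → I → V} {lev : P → I → ℕ} {ρ : P → I → R}
  {supp : ℕ → Set I} {z : P → I → V}

theorem Cfg.eq_iff (h : Cfg B x lev ρ supp z) (a : P) (l : I) (b : P) (l' : I) :
    z a l = z b l' ↔ lev a l = lev b l' ∧ ρ a l = ρ b l' := by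
  have h1 := h.lt a l b l'
  have h2 := h.lt b l' a l
  constructor
  · intro h3
    have h4 : ¬ z a l < z b l' := by rw [h3]; exact lt_irrefl _
    have h5 : ¬ z b l' < z a l := by rw [h3]; exact lt_irrefl _
    rw [h1] at h4
    rw [h2] at h5
    have h6 : lev a l = lev b l' := by
      rcases lt_trichotomy (lev a l) (lev b l') with h7 | h7 | h7
      · exact absurd (Or.inl h7) h4
      · exact h7
      · exact absurd (Or.inl h7) h5
    refine ⟨h6, ?_⟩
    rcases lt_trichotomy (ρ a l) (ρ b l') with h7 | h7 | h7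
    · exact absurd (Or.inr ⟨h6, h7⟩) h4
    · exact h7
    · exact absurd (Or.inr ⟨h6.symm, h7⟩) h5
  · rintro ⟨h3, h4⟩
    rcases lt_trichotomy (z a l) (z b l') with h5 | h5 | h5
    · rcases h1.1 h5 with h6 | h6
      · exact absurd h3 (ne_of_lt h6)
      · exact absurd h4 (ne_of_lt h6.2)
    · exact h5
    · rcases h2.1 h5 with h6 | h6
      · exact absurd h3.symm (ne_of_lt h6)
      · exact absurd h4.symm (ne_of_lt h6.2)

/-- blocks of a configuration -/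
theorem Cfg.zb (h : Cfg B x lev ρ supp z) (a : P) (κ : I → ℕ) (hk : ∀ l, lev a l = κ l)
    (hx : ∀ l l', κ l = κ l' → ρ a l = ρ a l')
    (hs : ∀ l l', κ l ≠ κ l' → supp (κ l) ∩ supp (κ l') = ∅ ∨ x a l = x a l') :
    ZB B κ (z a) := by
  intro l l'
  refine ⟨fun he => (h.eq_iff a l a l').2 ⟨by rw [hk, hk, he], hx l l' he⟩, fun hl => ?_⟩
  refine ⟨(h.lt a l a l').2 (Or.inl (by rw [hk, hk]; exact hl)), ?_⟩
  rw [h.typ, h.typ]
  refine (h.col a l a l').2 ?_
  rintro ⟨h1, h2⟩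
  rw [hk, hk] at h1
  rcases hs l l' (ne_of_lt hl) with h3 | h3
  · rw [h3] at h1
    exact Set.not_nonempty_empty h1
  · exact h2 h3

end cfg

end basic

section structures

variable {V X Θ : Type} {M : ℕ} [LinearOrder V] {σ : Sig} {B : Bs V X Θ M} {𝔸 : Str σ V}
  {D : Set Θ}

/-- The relations of a blind structure, and the full relation. -/
theorem Blind.rel (h : Blind B 𝔸 D) {s : Option (Fin σ.m)} {x y : Fin (arP σ M s) → V}
    (hx : relP 𝔸 M s x) (hs : SameD B D x y) : relP 𝔸 M s y := by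
  cases s with
  | none => trivial
  | some l => exact h l x y hx hs

theorem Blind.mono (h : Blind B 𝔸 D) {D' : Set Θ} (hD : D' ⊆ D) : Blind B 𝔸 D' :=
  fun l x y hx hs => h l x y hx (hs.mono hD)

theorem out_eq_ot (D : Set Θ) {P : Type} (y : P → V) (a b : P) :
    out B D y a b = ot B D (B.ct (y a) (y b)) := by
  unfold out ot
  simp only [Bs.ct_fst, B.left, B.right, B.ct_snd_eq]

theorem PM.pmo {I : Type} {h : (I → V) → (I → V) → X × Ordering} (hp : PM B 𝔸 h) (D : Set Θ) :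
    PMo B 𝔸 D (fun _ => True) (fun v w => ot B D (h v w)) := by
  intro s v hv _
  obtain ⟨x, hx, hx'⟩ := hp s v hv
  exact ⟨x, hx, fun a b => by rw [out_eq_ot, hx']⟩

theorem TID.ot {I : Type} {h : (I → V) → (I → V) → X × Ordering} (ht : TID B D h) :
    TID B D (fun v w => SO.ot B D (h v w)) :=
  fun v w v' w' hs => by
    show SO.ot B D (h v w) = SO.ot B D (h v' w')
    rw [ht v w v' w' hs]

theorem dat_self (B : Bs V X Θ M) (D : Set Θ) {P : Type} (x : P → V) (L : P → ℕ) (a : P) :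
    dat B D x L a a = ((B.vt (x a), B.vt (x a)), if B.vt (x a) ∈ D then none else some none) := by
  unfold dat
  simp

theorem out_self (B : Bs V X Θ M) (D : Set Θ) {P : Type} (y : P → V) (a : P) :
    out B D y a a = ((B.vt (y a), B.vt (y a)), if B.vt (y a) ∈ D then none else some none) := by
  unfold out
  simp

/-- the types of the values -/
theorem ty_eq {n : ℕ} (φ : (Fin n → Dt X Θ) → Ot X Θ) {P : Type} (x : Fin n → P → V)
    (L : Fin n → P → ℕ) (a : P) :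
    ty D φ (fun m => B.vt (x m a)) = (φ (fun m => dat B D (x m) (L m) a a)).1.1 := by
  unfold ty
  simp only [dat_self]

end structures

end Pool.Agent.H58.SO
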