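import Pool.Agent.H58.SO.Bridge

/-!
# Several orbits of vertices: assembly of part A
-/

set_option autoImplicit false
set_option linter.unusedVariables false

namespace Pool.Agent.H58.SO

open Pool.Agent.H68.BP Pool.Agent.H58.SF Pool.Agent.H53.GC Pool.Agent.H53.NR
open Classical

/-- the second step -/
theorem asm_STC (hSHP : T_SHP) (hMAX : T_MAX) (hNEE : T_NEE) (hPRE : T_PRE) (hBLD : T_BLD) :
    T_STC := by
  intro σ V X Θ _ M B 𝔸 h hs hn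
  obtain ⟨m, D, hm, hid, hD, hmax⟩ := hMAX σ V X Θ M B 𝔸 hn
  obtain ⟨hb, hu, hu'⟩ := hSHP σ V X Θ M B 𝔸 m D hs.blind hm hid hD
  obtain ⟨h1, h2⟩ := hNEE σ V X Θ M B 𝔸 m D hn hm hid hD hmax hu hu'
  obtain ⟨k, hk, hkt, hke⟩ := hPRE σ V X Θ M B 𝔸 (shp B 𝔸 D) m h hs hu' hu
  obtain ⟨k', hk't, hk'⟩ := hBLD V X Θ M B D (Fin 6) (X × Ordering) k hkt
  refine ⟨D, shp B 𝔸 D, k', id, m, ⟨hb, ?_, hk't, ?_⟩, h1, h2, hu, hu'⟩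
  · intro s v hv
    obtain ⟨g, hg1, hg2, hg3⟩ := hk' (Finset.univ.biUnion fun a => Finset.univ.image (v a))
    have hmem : ∀ a i, v a i ∈ Finset.univ.biUnion fun a => Finset.univ.image (v a) := by
      intro a i
      rw [Finset.mem_biUnion]
      exact ⟨a, Finset.mem_univ _, Finset.mem_image_of_mem _ (Finset.mem_univ _)⟩
    obtain ⟨x, hx, hx'⟩ := hk s (fun a i => g (v a i)) (fun i => by
      refine hb.rel (hv i) (SameO.sameD ⟨fun a => hg1 _ (hmem a i), fun a b ha hb' => ?_⟩)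
      exact hg2 _ (hmem a i) _ (hmem b i) ha hb')
    exact ⟨x, hx, fun a b => by rw [hx', hg3 _ _ (hmem a) (hmem b)]⟩
  · intro r x y x' y'
    obtain ⟨g, hg1, hg2, hg3⟩ := hk' {x, y, x', y'}
    have key : ∀ (r : Fin 3) (a b : V), a ∈ ({x, y, x', y'} : Finset V) →
        b ∈ ({x, y, x', y'} : Finset V) → ∀ i, pat r a b i ∈ ({x, y, x', y'} : Finset V) := by
      intro r a b ha hb i
      fin_cases r <;> fin_cases i <;> simp_all [pat]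
    rw [hg3 _ _ (key r x y (by simp) (by simp)) (key r x' y' (by simp) (by simp)),
      hg3 _ _ (key 0 x y (by simp) (by simp)) (key 0 x' y' (by simp) (by simp))]
    have h3 : ∀ (r : Fin 3) (a b : V), (fun i => g (pat r a b i)) = pat r (g a) (g b) :=
      fun r a b => funext fun i => pat_map g r a b i
    rw [h3, h3, h3, h3]
    exact hke r _ _ _ _

/-- Part A. -/
theorem asm_PA (hNR3 : T_NR3) (hHH0 : T_HH0) (hSTR : T_STR) (hSTC : T_STC) (hSTN : T_STN)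
    (hNCT : T_NCT) (hBSI : T_BSI) (hBSO : T_BSO) (hCOR : T_COR) (hHTR : T_HTR) :
    Pool.Agent.H57.SO.T_PA := by
  intro σ V S X _ P 𝔸 M c hs hol hK
  obtain ⟨B, hB⟩ := hBSI σ V S X P 𝔸 M c hs (max M 4) (le_max_left _ _) (le_max_right _ _)
  have := B.finX
  obtain ⟨h, hh⟩ := hHH0 σ V X S _ B 𝔸 hs.cnt hol (hNR3 V X _ _ _ B.univ) hK hB
  obtain ⟨V', X', Θ', _, B', 𝔸', h', m, m', hc, hh', hm, hm', hn⟩ := hSTR σ V X S _ B 𝔸 h hh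
  obtain ⟨D, 𝔸₂, h₂, m₂, m₂', hh₂, hn1, hn2, hm₂, hm₂'⟩ := hSTC σ V' X' Θ' _ B' 𝔸' h' hh' hn
  obtain ⟨h₃, hh₃⟩ := hSTN σ V' X' Θ' _ B' 𝔸₂ D h₂ hh₂ hn1 hn2
  obtain ⟨P', c', hc', hs'⟩ := hBSO σ V' X' Θ' _ B' 𝔸₂ (hc hs.cnt)
    (hh₂.blind.mono (Set.empty_subset _))
  have := B'.finX
  obtain ⟨h₄, hh₄⟩ := hCOR σ V' X' Θ' _ B' 𝔸₂ D h₃ hh₃ (hNR3 V' X' _ _ _ B'.univ)
    (fun κ κ' s z z' => hNCT σ V' X' Θ' _ B' 𝔸₂ D h₃ hh₃.sit hh₃.ne2 κ κ' s z z') P' c' hc'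
  refine ⟨V', Θ', X', _, P', 𝔸₂, _, c', h₄, hs', hh₄, fun n 𝕏 => ⟨fun hf => ?_, fun hf => ?_⟩⟩
  · exact hHTR σ V' X' Θ' V X S _ B' B 𝔸' 𝔸 ∅ m' hm' hB n 𝕏
      (hHTR σ V' X' Θ' V' X' Θ' _ B' B' 𝔸₂ 𝔸' ∅ m₂' hm₂' hh'.blind n 𝕏 hf)
  · exact hHTR σ V' X' Θ' V' X' Θ' _ B' B' 𝔸' 𝔸₂ D m₂ hm₂ hh₂.blind n 𝕏
      (hHTR σ V X S V' X' Θ' _ B B' 𝔸 𝔸' ∅ m hm hh'.blind n 𝕏 hf)

end Pool.Agent.H58.SO
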