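import Pool.Agent.H58.SO.Basic
import Pool.Agent.H57.SO.Targets

/-!
# Several orbits of vertices: the bridge to the part B of helper57
-/

set_option autoImplicit false
set_option linter.unusedVariables false

namespace Pool.Agent.H58.SO

open Pool.Agent.H68.BP Pool.Agent.H58.SF Pool.Agent.H53.GC Pool.Agent.H53.NR
open Classical

/-- from the hypotheses of part B to a coloured order -/
def T_BSI : Prop :=
  ∀ (σ : Sig) (V S X : Type) [LinearOrder V] (P : Pool.Agent.H57.SO.Pal S X) (𝔸 : Str σ V)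
    (M : ℕ) (c : V → V → S ⊕ X), Pool.Agent.H57.SO.Stp P 𝔸 M c → ∀ M', M ≤ M' → 4 ≤ M' →
    ∃ B : Bs V X S M', Blind B 𝔸 ∅

/-- `c` is the colouring of part B given by `B`. -/
def IsC {V X Θ : Type} {M : ℕ} [LinearOrder V] (B : Bs V X Θ M) (P : Pool.Agent.H57.SO.Pal Θ X)
    (c : V → V → Θ ⊕ X) : Prop :=
  (∀ x, c x x = Sum.inl (B.vt x)) ∧ (∀ x y, x ≠ y → c x y = Sum.inr (B.c x y)) ∧
    P.fr = B.fr ∧ P.ls = B.L ∧ P.rs = B.Rt ∧ P.rv = B.inv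

/-- from a coloured order to the hypotheses of part B -/
def T_BSO : Prop :=
  ∀ (σ : Sig) (V X Θ : Type) [LinearOrder V] (M : ℕ) (B : Bs V X Θ M) (𝔸 : Str σ V),
    Countable V → Blind B 𝔸 ∅ → ∃ (P : Pool.Agent.H57.SO.Pal Θ X) (c : V → V → Θ ⊕ X),
      IsC B P c ∧ Pool.Agent.H57.SO.Stp P 𝔸 M c

/-- from actions on the types to canonical maps -/
def T_LMU : Prop :=
  ∀ (σ : Sig) (V X Θ : Type) [LinearOrder V] (M : ℕ) (B : Bs V X Θ M) (𝔸 : Str σ V),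
    Blind B 𝔸 ∅ → RamseyFin B.c → ∀ γ : Θ → Θ,
      (∀ (W : Type) [Finite W] (G : W → V), ∃ ψ : W → V,
        Pool.Agent.H57.EQ.Cx 𝔸 (fun _ : Unit => G) ψ ∧ ∀ w, B.vt (ψ w) = γ (B.vt (G w))) →
      ∃ m, UM B B 𝔸 𝔸 m ∧ ∀ s, tm B B m s = γ s

/-- from the core situation to the core of part B -/
def T_COR : Prop :=
  ∀ (σ : Sig) (V X Θ : Type) [LinearOrder V] (M : ℕ) (B : Bs V X Θ M) (𝔸 : Str σ V) (D : Set Θ)
    (h), Core B 𝔸 D h → RamseyFin B.c →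
    (∀ (κ κ' : Fin 6 → ℕ) (s : Θ) (z z' : Fin 6 → V), s ∉ D →
      (∀ l, B.vt (z l) = s) → (∀ l, B.vt (z' l) = s) → ZB B κ z → ZB B κ' z' →
      (∀ l l', z l ≠ z' l') → (h z z').2 ≠ Ordering.eq) →
    ∀ (P : Pool.Agent.H57.SO.Pal Θ X) (c : V → V → Θ ⊕ X), IsC B P c →
      ∃ h', Pool.Agent.H57.SO.Core P 𝔸 c h'

end Pool.Agent.H58.SO
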