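import Pool.Agent.H57.EQ.Targets
import Pool.Agent.H44.EQ.Targets
import Pool.Agent.H53.NR.Targets

/-!
# Structures with free amalgamation in a binary language, several orbits of vertices: definitions
-/

set_option autoImplicit false

namespace Pool.Agent.H58.SO

open Pool.Agent.H68.BP Pool.Agent.H58.SF Pool.Agent.H53.GC Pool.Agent.H53.NR
open Classical

/-- A coloured linear order: `c x y` is the colour of the pair `(x, y)`, `vt x` is the type of the
vertex `x`, `L t` and `Rt t` are the types of the two vertices of a pair of the colour `t`, `inv t`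
is the colour of the reversed pair, and `fr s t` is the free colour for pairs of vertices of the
types `s` and `t`. -/
structure Bs (V X Θ : Type) (M : ℕ) [LinearOrder V] where
  c : V → V → X
  vt : V → Θ
  L : X → Θ
  Rt : X → Θ
  inv : X → X
  fr : Θ → Θ → X
  finX : Finite X
  finT : Finite Θ
  ne : Nonempty V
  four : 4 ≤ M
  left : ∀ x y, L (c x y) = vt x
  right : ∀ x y, Rt (c x y) = vt y
  sym : ∀ x y, c y x = inv (c x y)
  diag : ∀ x, c x x = fr (vt x) (vt x)
  surjX : ∀ t, ∃ x y, c x y = t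
  surjT : ∀ s, ∃ x, vt x = s
  frI : ∀ s t, inv (fr s t) = fr t s
  frL : ∀ s t, L (fr s t) = s
  frR : ∀ s t, Rt (fr s t) = t
  univ : Universal c (fun a b => fr (L a) (L b)) M

section basic

variable {V X Θ : Type} {M : ℕ} [LinearOrder V]

/-- the colour and the order of a pair -/
def Bs.ct (B : Bs V X Θ M) (x y : V) : X × Ordering := (B.c x y, cmp x y)

/-- The tuples `x` and `y` have the same types of vertices, and the same equalities and colours at
the vertices whose types are not in `D`. -/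
def SameD (B : Bs V X Θ M) (D : Set Θ) {I : Type} (x y : I → V) : Prop :=
  (∀ a, B.vt (y a) = B.vt (x a)) ∧ ∀ a b, B.vt (x a) ∉ D → B.vt (x b) ∉ D →
    (y a = y b ↔ x a = x b) ∧ B.c (y a) (y b) = B.c (x a) (x b)

/-- The tuples `x` and `y` have the same types of vertices, and the same colours and orders at
the vertices whose types are not in `D`. -/
def SameO (B : Bs V X Θ M) (D : Set Θ) {I : Type} (x y : I → V) : Prop :=
  (∀ a, B.vt (y a) = B.vt (x a)) ∧ ∀ a b, B.vt (x a) ∉ D → B.vt (x b) ∉ D →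
    B.ct (y a) (y b) = B.ct (x a) (x b)

/-- `h` depends only on the types, colours and orders, and only on the types at the vertices whose
types are in `D`. -/
def TID (B : Bs V X Θ M) (D : Set Θ) {I Z : Type} (h : (I → V) → (I → V) → Z) : Prop :=
  ∀ v w v' w' : I → V, SameO B D (Sum.elim v w) (Sum.elim v' w') → h v w = h v' w'

/-- The block `z` has the shape `κ`: entries in positions of the same level are equal, and entries
in positions `l, l'` with `κ l < κ l'` are in this order and free. -/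
def ZB (B : Bs V X Θ M) {I : Type} (κ : I → ℕ) (z : I → V) : Prop :=
  ∀ l l', (κ l = κ l' → z l = z l') ∧
    (κ l < κ l' → z l < z l' ∧ B.c (z l) (z l') = B.fr (B.vt (z l)) (B.vt (z l')))

/-- The blocks `z` and `z'` have the shape `κ` and lie in common zones: entries in positions
`l, l'` with `κ l < κ l'` are in this order and free. -/
structure ZA (B : Bs V X Θ M) {I : Type} (κ : I → ℕ) (z z' : I → V) : Prop where
  eq : ∀ l l', κ l = κ l' → z l = z l' ∧ z' l = z' l'
  lt : ∀ l l', κ l < κ l' → z l < z l' ∧ z l < z' l' ∧ z' l < z l' ∧ z' l < z' l'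
  free : ∀ l l', κ l < κ l' → B.c (z l) (z l') = B.fr (B.vt (z l)) (B.vt (z l')) ∧
    B.c (z l) (z' l') = B.fr (B.vt (z l)) (B.vt (z' l')) ∧
    B.c (z' l) (z l') = B.fr (B.vt (z' l)) (B.vt (z l')) ∧
    B.c (z' l) (z' l') = B.fr (B.vt (z' l)) (B.vt (z' l'))

/-- `z` is the configuration of the entries `x a l` with the levels `lev a l` and the ranks
`ρ a l`: entries with the same level and the same rank are identified, the order is given by the
level and then by the rank, and the colour is copied if the supports of the levels meet; otherwise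
it is free. -/
structure Cfg (B : Bs V X Θ M) {P I R : Type} [LinearOrder R] (x : P → I → V) (lev : P → I → ℕ)
    (ρ : P → I → R) (supp : ℕ → Set I) (z : P → I → V) : Prop where
  typ : ∀ a l, B.vt (z a l) = B.vt (x a l)
  lt : ∀ a l b l', z a l < z b l' ↔
    lev a l < lev b l' ∨ (lev a l = lev b l' ∧ ρ a l < ρ b l')
  col : ∀ a l b l', ((supp (lev a l) ∩ supp (lev b l')).Nonempty ∧ x a l ≠ x b l' →
      B.c (z a l) (z b l') = B.c (x a l) (x b l')) ∧
    (¬ ((supp (lev a l) ∩ supp (lev b l')).Nonempty ∧ x a l ≠ x b l') →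
      B.c (z a l) (z b l') = B.fr (B.vt (x a l)) (B.vt (x b l')))

end basic

section structures

variable {V X Θ : Type} {M : ℕ} [LinearOrder V] {σ : Sig}

/-- The relations of `𝔸` depend only on the types of the vertices, and on the equalities and colours
at the vertices whose types are not in `D`. -/
def Blind (B : Bs V X Θ M) (𝔸 : Str σ V) (D : Set Θ) : Prop :=
  ∀ (l : Fin σ.m) (x y : Fin (σ.ar l) → V), 𝔸 l x → SameD B D x y → 𝔸 l y

/-- `h` gives the colours and orders of the pairs of values of a polymorphism of `𝔸` with the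
arguments `I`. -/
def PM (B : Bs V X Θ M) (𝔸 : Str σ V) {I : Type} (h : (I → V) → (I → V) → X × Ordering) :
    Prop :=
  ∀ (s : Option (Fin σ.m)) (v : Fin (arP σ M s) → I → V),
    (∀ i, relP 𝔸 M s (fun a => v a i)) →
    ∃ x, relP 𝔸 M s x ∧ ∀ a b, B.ct (x a) (x b) = h (v a) (v b)

/-- `h` satisfies the identities of an Olšák function. -/
def Exa {Z : Type} (h : (Fin 6 → V) → (Fin 6 → V) → Z) : Prop :=
  ∀ (r : Fin 3) (x y x' y' : V), h (pat r x y) (pat r x' y') = h (pat 0 x y) (pat 0 x' y')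

/-- `m` gives the colours and orders of the pairs of values of a homomorphism from `𝔸` to `𝔸'`. -/
def UM {V' X' Θ' : Type} [LinearOrder V'] (B : Bs V X Θ M) (B' : Bs V' X' Θ' M) (𝔸 : Str σ V)
    (𝔸' : Str σ V') (m : X × Ordering → X' × Ordering) : Prop :=
  ∀ (s : Option (Fin σ.m)) (x : Fin (arP σ M s) → V), relP 𝔸 M s x →
    ∃ y : Fin (arP σ M s) → V', relP 𝔸' M s y ∧ ∀ a b, B'.ct (y a) (y b) = m (B.ct (x a) (x b))

/-- the map of the types of vertices -/
def tm {V' X' Θ' : Type} [LinearOrder V'] (B : Bs V X Θ M) (B' : Bs V' X' Θ' M)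
    (m : X × Ordering → X' × Ordering) (s : Θ) : Θ' :=
  B'.L (m (B.fr s s, Ordering.eq)).1

/-- a structure with a canonical Olšák map -/
structure Sit (B : Bs V X Θ M) (𝔸 : Str σ V) (D : Set Θ)
    (h : (Fin 6 → V) → (Fin 6 → V) → X × Ordering) : Prop where
  blind : Blind B 𝔸 D
  pm : PM B 𝔸 h
  tid : TID B D h
  exact : Exa h

/-- All canonical endomorphisms of `𝔸` permute the types of vertices. -/
def NE1 (B : Bs V X Θ M) (𝔸 : Str σ V) : Prop :=
  ∀ m, UM B B 𝔸 𝔸 m → Function.Bijective (tm B B m)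

/-- No canonical endomorphism of `𝔸` identifies the vertices of a type which is not in `D`. -/
def NE2 (B : Bs V X Θ M) (𝔸 : Str σ V) (D : Set Θ) : Prop :=
  ∀ m, UM B B 𝔸 𝔸 m → ∀ s, s ∉ D → (m (B.fr s s, Ordering.lt)).2 ≠ Ordering.eq

/-- The core situation: moreover blocks of vertices of one type have values of this type. -/
structure Core (B : Bs V X Θ M) (𝔸 : Str σ V) (D : Set Θ)
    (h : (Fin 6 → V) → (Fin 6 → V) → X × Ordering) : Prop where
  sit : Sit B 𝔸 D h
  ne1 : NE1 B 𝔸
  ne2 : NE2 B 𝔸 D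
  pur : ∀ (κ : Fin 6 → ℕ) (s : Θ) (z : Fin 6 → V), ZB B κ z → (∀ l, B.vt (z l) = s) →
    B.L (h z z).1 = s

/-- The structure where the vertices with types in `D` are arbitrary. -/
def shp (B : Bs V X Θ M) (𝔸 : Str σ V) (D : Set Θ) : Str σ V :=
  fun l y => ∃ x, 𝔸 l x ∧ SameD B D x y

end structures

/-! ### Operations on data -/

section data

variable {V X Θ : Type} {M : ℕ} [LinearOrder V] {σ : Sig}

/-- The data of a pair: the types of the vertices, and `none` if one of them is in `D`,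
`some none` for equality, otherwise the colour and a bit for the order. -/
abbrev Dt (X Θ : Type) : Type := (Θ × Θ) × Option (Option (X × Bool))

/-- the same without order -/
abbrev Ot (X Θ : Type) : Type := (Θ × Θ) × Option (Option X)

/-- The elements of the template: instead of the colour a pair of colours (for ascending and for
descending pairs), and a bit for a tournament. -/
abbrev Te (X Θ : Type) : Type := (Θ × Θ) × Option (Option ((X × X) × Bool))

/-- the data of the pair `(x a, x b)`, where the order is given by the ranks `L` -/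
noncomputable def dat (B : Bs V X Θ M) (D : Set Θ) {P : Type} (x : P → V) (L : P → ℕ) (a b : P) :
    Dt X Θ :=
  ((B.vt (x a), B.vt (x b)), if B.vt (x a) ∈ D ∨ B.vt (x b) ∈ D then none else
    if x a = x b then some none else some (some (B.c (x a) (x b), decide (L a < L b))))

/-- the data of the pair `(y a, y b)` without order -/
noncomputable def out (B : Bs V X Θ M) (D : Set Θ) {P : Type} (y : P → V) (a b : P) : Ot X Θ :=
  ((B.vt (y a), B.vt (y b)), if B.vt (y a) ∈ D ∨ B.vt (y b) ∈ D then none else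
    if y a = y b then some none else some (some (B.c (y a) (y b))))

/-- from colours and orders to data -/
noncomputable def ot (B : Bs V X Θ M) (D : Set Θ) (t : X × Ordering) : Ot X Θ :=
  ((B.L t.1, B.Rt t.1), if B.L t.1 ∈ D ∨ B.Rt t.1 ∈ D then none else
    if t.2 = Ordering.eq then some none else some (some t.1))

/-- The ranks `L` are compatible with the equalities of `x` outside of `D`. -/
def Rnk (B : Bs V X Θ M) (D : Set Θ) {P : Type} (x : P → V) (L : P → ℕ) : Prop :=
  ∀ a b, B.vt (x a) ∉ D → B.vt (x b) ∉ D → (L a = L b ↔ x a = x b)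

/-- `h` gives the data of the pairs of values of a polymorphism of `𝔸` with the arguments `I`, on
the tuples whose types satisfy `Q`. -/
def PMo (B : Bs V X Θ M) (𝔸 : Str σ V) (D : Set Θ) {I : Type} (Q : (I → Θ) → Prop)
    (h : (I → V) → (I → V) → Ot X Θ) : Prop :=
  ∀ (s : Option (Fin σ.m)) (v : Fin (arP σ M s) → I → V),
    (∀ i, relP 𝔸 M s (fun a => v a i)) → (∀ a, Q (fun i => B.vt (v a i))) →
    ∃ x, relP 𝔸 M s x ∧ ∀ a b, out B D x a b = h (v a) (v b)

/-- `φ` is an operation with `n` arguments on data which preserves the relations of `𝔸`, on the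
tuples whose types satisfy `Q`, for arbitrary orders of the arguments. -/
def OLO (B : Bs V X Θ M) (𝔸 : Str σ V) (D : Set Θ) {n : ℕ} (Q : (Fin n → Θ) → Prop)
    (φ : (Fin n → Dt X Θ) → Ot X Θ) : Prop :=
  ∀ (s : Option (Fin σ.m)) (x : Fin n → Fin (arP σ M s) → V)
    (L : Fin n → Fin (arP σ M s) → ℕ), (∀ m, relP 𝔸 M s (x m)) →
    (∀ m, Rnk B D (x m) (L m)) → (∀ a, Q (fun m => B.vt (x m a))) →
    ∃ y, relP 𝔸 M s y ∧ ∀ a b, out B D y a b = φ (fun m => dat B D (x m) (L m) a b)

/-- the types of the values of `φ` -/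
noncomputable def ty {n : ℕ} (D : Set Θ) (φ : (Fin n → Dt X Θ) → Ot X Θ) (θ : Fin n → Θ) : Θ :=
  (φ (fun m => ((θ m, θ m), if θ m ∈ D then none else some none))).1.1

/-- The operation `φ` is tame: its value at a pair is the equality if and only if the two types are
in the relation `E` and the arguments in the set `J` of arguments are equal. -/
structure Tame (B : Bs V X Θ M) (D : Set Θ) {n : ℕ} (Q : (Fin n → Θ) → Prop)
    (φ : (Fin n → Dt X Θ) → Ot X Θ) (J : (Fin n → Θ) → Set (Fin n))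
    (E : (Fin n → Θ) → (Fin n → Θ) → Prop) : Prop where
  refl : ∀ θ, Q θ → ty D φ θ ∉ D → E θ θ
  symm : ∀ θ θ', E θ θ' → E θ' θ
  trans : ∀ θ θ' θ'', E θ θ' → E θ' θ'' → E θ θ''
  dom : ∀ θ θ', E θ θ' → Q θ ∧ ty D φ θ ∉ D ∧ ty D φ θ' = ty D φ θ ∧ J θ' = J θ ∧
    ∀ m ∈ J θ, θ' m = θ m ∧ θ m ∉ D
  typ : ∀ (x : Fin n → Fin 2 → V) (L : Fin n → Fin 2 → ℕ), (∀ m, Rnk B D (x m) (L m)) →
    (∀ a, Q (fun m => B.vt (x m a))) → (φ (fun m => dat B D (x m) (L m) 0 1)).1 =
      (ty D φ (fun m => B.vt (x m 0)), ty D φ (fun m => B.vt (x m 1)))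
  ker : ∀ (x : Fin n → Fin 2 → V) (L : Fin n → Fin 2 → ℕ), (∀ m, Rnk B D (x m) (L m)) →
    (∀ a, Q (fun m => B.vt (x m a))) → ty D φ (fun m => B.vt (x m 0)) ∉ D →
    ty D φ (fun m => B.vt (x m 1)) ∉ D →
    ((φ (fun m => dat B D (x m) (L m) 0 1)).2 = some none ↔
      E (fun m => B.vt (x m 0)) (fun m => B.vt (x m 1)) ∧
        ∀ m ∈ J (fun m => B.vt (x m 0)), x m 0 = x m 1)

/-- `w` is a cyclic operation of `𝔸` for tuples with the same types of vertices and the same
equalities, for pairs which are ascending in the order given by the ranks `rk`. -/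
structure CycW (B : Bs V X Θ M) (𝔸 : Str σ V) (D : Set Θ) (p : ℕ) (w : (ZMod p → X) → X) :
    Prop where
  cyc : ∀ t, w (fun i => t (i + 1)) = w t
  rel : ∀ (s : Option (Fin σ.m)) (x : ZMod p → Fin (arP σ M s) → V),
    (∀ i, relP 𝔸 M s (x i)) → (∀ i a, B.vt (x i a) = B.vt (x 0 a)) →
    (∀ i a b, B.vt (x 0 a) ∉ D → B.vt (x 0 b) ∉ D → (x i a = x i b ↔ x 0 a = x 0 b)) →
    ∀ rk : Fin (arP σ M s) → ℕ, Rnk B D (x 0) rk →
    ∃ y, relP 𝔸 M s y ∧ (∀ a, B.vt (y a) = B.vt (x 0 a)) ∧
      ∀ a b, B.vt (x 0 a) ∉ D → B.vt (x 0 b) ∉ D → (y a = y b ↔ x 0 a = x 0 b) ∧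
        (rk a < rk b → B.c (y a) (y b) = w (fun i => B.c (x i a) (x i b)))

/-- for all large primes there are cyclic operations -/
def CycAll (B : Bs V X Θ M) (𝔸 : Str σ V) (D : Set Θ) : Prop :=
  ∃ N₀ : ℕ, ∀ p : ℕ, p.Prime → N₀ < p → ∃ w, CycW B 𝔸 D p w

end data

/-! ### The template -/

section template

variable {V X Θ : Type} {M : ℕ} [LinearOrder V] {σ : Sig}

/-- `q` is the pattern of a family of tuples in the relation `s` of `𝔸` with the types `θ`: the
equalities outside of `D` are those of the labels `k`, the bits are given by the tournament `T` on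
the labels, and for each order of the labels (given by the ranks `rk`) there is a tuple in the
relation with the first colours for the ascending pairs and the second colours for the others. -/
structure Fam3 (B : Bs V X Θ M) (𝔸 : Str σ V) (D : Set Θ) (s : Option (Fin σ.m))
    (q : Fin (arP σ M s) × Fin (arP σ M s) → Te X Θ) (θ : Fin (arP σ M s) → Θ)
    (k : Fin (arP σ M s) → ℕ) (T : ℕ → ℕ → Bool) : Prop where
  tour : Pool.Agent.H57.EQ.Tour T
  typ : ∀ a b, (q (a, b)).1 = (θ a, θ b)
  star : ∀ a b, (q (a, b)).2 = none ↔ θ a ∈ D ∨ θ b ∈ D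
  eq : ∀ a b, θ a ∉ D → θ b ∉ D → ((q (a, b)).2 = some none ↔ k a = k b)
  bit : ∀ a b t, (q (a, b)).2 = some (some t) → t.2 = T (k a) (k b)
  fam : ∀ rk : Fin (arP σ M s) → ℕ,
    (∀ a b, θ a ∉ D → θ b ∉ D → (rk a = rk b ↔ k a = k b)) →
    ∃ x : Fin (arP σ M s) → V, relP 𝔸 M s x ∧ (∀ a, B.vt (x a) = θ a) ∧
      (∀ a b, θ a ∉ D → θ b ∉ D → (x a = x b ↔ k a = k b)) ∧
      ∀ a b t, (q (a, b)).2 = some (some t) →
        B.c (x a) (x b) = if rk a < rk b then t.1.1 else t.1.2

/-- the patterns of the families of tuples in the relation `s` -/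
def FamT (B : Bs V X Θ M) (𝔸 : Str σ V) (D : Set Θ) (s : Option (Fin σ.m))
    (q : Fin (arP σ M s) × Fin (arP σ M s) → Te X Θ) : Prop :=
  ∃ θ k T, Fam3 B 𝔸 D s q θ k T

/-- The finite template: for each relation of `𝔸` and for the full relation of arity `M` it has a
relation, which consists of the patterns of the families of tuples in this relation. -/
noncomputable def tplT (B : Bs V X Θ M) (𝔸 : Str σ V) (D : Set Θ) :
    Str (sigOf (Option (Fin σ.m)) (fun s => Fin (arP σ M s) × Fin (arP σ M s))) (Te X Θ) :=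
  strOn (FamT B 𝔸 D)

/-- polymorphisms of the template -/
def PolT (B : Bs V X Θ M) (𝔸 : Str σ V) (D : Set Θ) {I : Type} (F : (I → Te X Θ) → Te X Θ) :
    Prop :=
  ∀ (s : Option (Fin σ.m)) (q : I → Fin (arP σ M s) × Fin (arP σ M s) → Te X Θ),
    (∀ i, FamT B 𝔸 D s (q i)) → FamT B 𝔸 D s (fun e => F (fun i => q i e))

/-- The operation `F` has the values `g` on types. -/
def OnT {I : Type} (F : (I → Te X Θ) → Te X Θ) (g : (I → Θ) → Θ) : Prop :=
  ∀ z, (F z).1 = (g (fun i => (z i).1.1), g (fun i => (z i).1.2))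

/-- `H` preserves the relations of the template for tuples with the same types, and its kernel is
the intersection of the kernels. -/
structure PurT (B : Bs V X Θ M) (𝔸 : Str σ V) (D : Set Θ) {I : Type} (H : (I → Te X Θ) → Te X Θ) :
    Prop where
  rel : ∀ (s : Option (Fin σ.m)) (q : I → Fin (arP σ M s) × Fin (arP σ M s) → Te X Θ),
    (∀ i, FamT B 𝔸 D s (q i)) → (∀ i j e, (q i e).1 = (q j e).1) →
    FamT B 𝔸 D s (fun e => H (fun i => q i e))
  typ : ∀ z i, (∀ j, (z j).1 = (z i).1) → (H z).1 = (z i).1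
  ker : ∀ z, (∀ i j, (z i).1 = (z j).1) → (∀ i, (z i).1.1 ∉ D) → (∀ i, (z i).1.2 ∉ D) →
    (∀ i, (z i).2 ≠ none) → (H z).2 ≠ none ∧ ((H z).2 = some none ↔ ∀ i, (z i).2 = some none)

/-- The operation `ψ` preserves the relations for families in the arguments in `S` and for linear
orders in the other arguments; its second argument is the order of the values. -/
def Semi (B : Bs V X Θ M) (𝔸 : Str σ V) (D : Set Θ) {n : ℕ} (Q : (Fin n → Θ) → Prop)
    (φ : (Fin n → Dt X Θ) → Ot X Θ) (J : (Fin n → Θ) → Set (Fin n))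
    (E : (Fin n → Θ) → (Fin n → Θ) → Prop) (S : Set (Fin n)) (ψ : (Fin n → Te X Θ) → Bool → X) :
    Prop :=
  ∀ (s : Option (Fin σ.m)) (q : Fin n → Fin (arP σ M s) × Fin (arP σ M s) → Te X Θ)
    (θ : Fin n → Fin (arP σ M s) → Θ) (k : Fin n → Fin (arP σ M s) → ℕ)
    (T : Fin n → ℕ → ℕ → Bool), (∀ m, Fam3 B 𝔸 D s (q m) (θ m) (k m) (T m)) →
    (∀ m, m ∉ S → ∃ L : ℕ → ℕ, ∀ a b, k m a ≠ k m b → L (k m a) ≠ L (k m b) ∧
      T m (k m a) (k m b) = decide (L (k m a) < L (k m b))) →
    (∀ a, Q (fun m => θ m a)) → ∀ rk : Fin (arP σ M s) → ℕ,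
    (∀ a b, ty D φ (fun m => θ m a) ∉ D → ty D φ (fun m => θ m b) ∉ D →
      (rk a = rk b ↔ (E (fun m => θ m a) (fun m => θ m b) ∧
        ∀ m ∈ J (fun m => θ m a), k m a = k m b))) →
    ∃ y, relP 𝔸 M s y ∧ (∀ a, B.vt (y a) = ty D φ (fun m => θ m a)) ∧
      ∀ a b, ty D φ (fun m => θ m a) ∉ D → ty D φ (fun m => θ m b) ∉ D →
        (y a = y b ↔ rk a = rk b) ∧
        (rk a ≠ rk b → B.c (y a) (y b) = ψ (fun m => q m (a, b)) (decide (rk a < rk b)))

end template

/-! ### The typed injective part -/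

section injective

variable {V X Θ : Type} {M : ℕ} [LinearOrder V] {σ : Sig}

/-- the symbols: a relation, a map of its places onto `k` places, types of the old and of the new
places -/
abbrev SyT (σ : Sig) (M : ℕ) (Θ : Type) : Type :=
  Σ (s : Option (Fin σ.m)) (k : Fin (arP σ M s + 1)),
    (Fin (arP σ M s) → Fin k) × (Fin (arP σ M s) → Θ) × (Fin k → Θ)

/-- The typed injective part: the relation of the symbol `(s, k, f, θ, θ')` consists of the
injective tuples `y` with the types `θ'`, which are not in `D`, such that there is a tuple `x` in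
the relation `s` with the types `θ` and `x a = y (f a)` whenever `θ a` is not in `D`. -/
noncomputable def typS [Finite Θ] (B : Bs V X Θ M) (𝔸 : Str σ V) (D : Set Θ) :
    Str (sigOf (SyT σ M Θ) (fun s => Fin s.2.1)) V :=
  strOn fun s y => Function.Injective y ∧ (∀ j, B.vt (y j) = s.2.2.2.2 j ∧ s.2.2.2.2 j ∉ D) ∧
    ∃ x, relP 𝔸 M s.1 x ∧ (∀ a, B.vt (x a) = s.2.2.2.1 a) ∧
      ∀ a, s.2.2.2.1 a ∉ D → x a = y (s.2.2.1 a)

end injective

/-! ### Binary polymorphisms on pairs of vertices of the same type -/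

section pure

variable {V X Θ : Type} {M : ℕ} [LinearOrder V] {σ : Sig}

/-- pairs of vertices of the same type -/
def Pu (B : Bs V X Θ M) {n : ℕ} (q : Fin n → V) (p : Fin n × Fin n) : Prop :=
  B.vt (q p.1) = B.vt (q p.2)

/-- `γ` is a binary polymorphism of `𝔸` on the pairs of the elements `q a` of the same type, and it
preserves the types. -/
structure BPl (B : Bs V X Θ M) (𝔸 : Str σ V) {n : ℕ} (q : Fin n → V) (γ : Fin n × Fin n → V) :
    Prop where
  typ : ∀ p, Pu B q p → B.vt (γ p) = B.vt (q p.1)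
  rel : ∀ (l : Fin σ.m) (a b : Fin (σ.ar l) → Fin n), 𝔸 l (fun i => q (a i)) →
    𝔸 l (fun i => q (b i)) → (∀ i, Pu B q (a i, b i)) → 𝔸 l (fun i => γ (a i, b i))

/-- The pair `u` of pairs consists of two pairs of vertices of the same type, which is not in
`D`. -/
def Adm (B : Bs V X Θ M) (D : Set Θ) {n : ℕ} (q : Fin n → V)
    (u : (Fin n × Fin n) × (Fin n × Fin n)) : Prop :=
  Pu B q u.1 ∧ Pu B q u.2 ∧ B.vt (q u.2.1) = B.vt (q u.1.1) ∧ B.vt (q u.1.1) ∉ D

/-- On each finite set there is an injective binary polymorphism on the pairs of vertices of the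
same type. -/
def InjP (B : Bs V X Θ M) (𝔸 : Str σ V) (D : Set Θ) : Prop :=
  ∀ (n : ℕ) (q : Fin n → V), Function.Injective q →
    ∃ γ, BPl B 𝔸 q γ ∧ ∀ p p', Adm B D q (p, p') → γ p = γ p' → p = p'

/-- a minimal set `U` of pairs which cannot be separated, and two polymorphisms which separate all
but one of them -/
structure MinU (B : Bs V X Θ M) (𝔸 : Str σ V) (D : Set Θ) {n : ℕ} (q : Fin n → V)
    (γ₀ γ₁ : Fin n × Fin n → V) (p₀ p₀' p₁ p₁' : Fin n × Fin n)
    (U : Set ((Fin n × Fin n) × (Fin n × Fin n))) : Prop where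
  inj : Function.Injective q
  b₀ : BPl B 𝔸 q γ₀
  b₁ : BPl B 𝔸 q γ₁
  e1 : γ₀ p₀ = γ₀ p₀'
  e2 : γ₁ p₀ ≠ γ₁ p₀'
  e3 : γ₁ p₁ = γ₁ p₁'
  e4 : γ₀ p₁ ≠ γ₀ p₁'
  m₀ : (p₀, p₀') ∈ U
  m₁ : (p₁, p₁') ∈ U
  sep : ∀ γ, BPl B 𝔸 q γ → ∃ u ∈ U, γ u.1 = γ u.2
  adm : ∀ u ∈ U, Adm B D q u
  oth : ∀ u ∈ U, u = (p₀, p₀') ∨ u = (p₁, p₁') ∨ (γ₀ u.1 ≠ γ₀ u.2 ∧ γ₁ u.1 ≠ γ₁ u.2)

/-- The positions in `J` determine the values of `h` on blocks of the shape `κ` which consist of
vertices of the type `s`. -/
structure JS (B : Bs V X Θ M) (h : (Fin 6 → V) → (Fin 6 → V) → X × Ordering) (κ : Fin 6 → ℕ)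
    (s : Θ) (J : Set (Fin 6)) : Prop where
  ne : J.Nonempty
  sat : ∀ l l', κ l = κ l' → (l ∈ J ↔ l' ∈ J)
  det : ∀ z z' : Fin 6 → V, (∀ l, B.vt (z l) = s) → (∀ l, B.vt (z' l) = s) → ZA B κ z z' →
    ((h z z').2 = Ordering.eq ↔ ∀ l ∈ J, z l = z' l)

/-- the generic shape -/
def gen : Fin 6 → ℕ := fun l => l.val + 1

/-- the type of the value of `h` on blocks of the shape `κ` with the types `θ` -/
noncomputable def tyb (B : Bs V X Θ M) (h : (Fin 6 → V) → (Fin 6 → V) → X × Ordering)
    (κ : Fin 6 → ℕ) (θ : Fin 6 → Θ) : Θ :=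
  if hz : ∃ z : Fin 6 → V, ZB B κ z ∧ ∀ l, B.vt (z l) = θ l then
    B.L (h hz.choose hz.choose).1 else θ 0

/-- The shape of the blocks `pat r x y` where the entries `x` are shared if their type is in `S₀`
and the entries `y` are shared if their type is in `S₁`. -/
noncomputable def lv (S₀ S₁ : Set Θ) (r : Fin 3) (s s' : Θ) : Fin 6 → ℕ := fun l =>
  pat r (if s ∈ S₀ then 0 else l.val + 1) (if s' ∈ S₁ then 7 else l.val + 1) l

end pure

end Pool.Agent.H58.SO
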